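import Pool.Agent.P.MP_68beba_co.Metric

/-!
Lower bound for the inflation factor of an arbitrary ellipsoid inside the metric polytope.
-/

namespace Pool.Agent.P.MP_68beba_co.Best

open Matrix Finset Pool.Agent.P.MP_68beba_co

variable {n : ℕ}

/-- sign of a Boolean -/
def sg (b : Bool) : ℝ := if b then 1 else -1

lemma sg_not (b : Bool) : sg (!b) = -sg b := by cases b <;> simp [sg]

lemma sg_sq (b : Bool) : sg b * sg b = 1 := by cases b <;> simp [sg]

/-- character of a pair -/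
def chi (σ : Fin n → Bool) (e : Pr n) : ℝ :=
  Sym2.lift ⟨fun i j => sg (σ i) * sg (σ j), fun _ _ => mul_comm _ _⟩ e.1

/-- flip one coordinate -/
def flip (a : Fin n) (σ : Fin n → Bool) : Fin n → Bool := fun i => if i = a then !σ i else σ i

lemma flip_flip (a : Fin n) (σ : Fin n → Bool) : flip a (flip a σ) = σ := by
  ext i; by_cases h : i = a <;> simp [flip, h]

lemma chi_flip (a : Fin n) (σ : Fin n → Bool) (e : Pr n) :
    chi (flip a σ) e = if a ∈ e.1 then -chi σ e else chi σ e := by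
  obtain ⟨e, he⟩ := e
  induction e using Sym2.ind with
  | h i j =>
    have hij : i ≠ j := by simpa using he
    simp only [chi, Sym2.lift_mk, flip, Sym2.mem_iff]
    by_cases h1 : i = a <;> by_cases h2 : j = a
    · exact absurd (h1.trans h2.symm) hij
    · simp [h1, h2, sg_not]
    · simp [h1, h2, sg_not]
    · simp [h1, h2, Ne.symm h1, Ne.symm h2]

lemma chi_sq (σ : Fin n → Bool) (e : Pr n) : chi σ e * chi σ e = 1 := by
  obtain ⟨e, he⟩ := e
  induction e using Sym2.ind with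
  | h i j =>
    simp only [chi, Sym2.lift_mk]
    linear_combination sg (σ j) * sg (σ j) * sg_sq (σ i) + sg_sq (σ j)

lemma sum_odd (a : Fin n) (f : (Fin n → Bool) → ℝ) (h : ∀ σ, f (flip a σ) = -f σ) :
    ∑ σ, f σ = 0 := by
  have e := Equiv.sum_comp (Function.Involutive.toPerm (flip a) (flip_flip a)) f
  simp only [Function.Involutive.coe_toPerm, h, sum_neg_distrib] at e
  linarith

lemma sum_chi (e : Pr n) : ∑ σ, chi σ e = 0 :=
  sum_odd e.1.out.1 _ fun σ => by rw [chi_flip, if_pos (Sym2.out_fst_mem _)]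

lemma exists_mem_not {e f : Pr n} (h : e ≠ f) : ∃ a, a ∈ e.1 ∧ a ∉ f.1 := by
  by_contra hc
  push Not at hc
  obtain ⟨e, he⟩ := e
  obtain ⟨f, hf⟩ := f
  induction e using Sym2.ind with
  | h i j =>
    induction f using Sym2.ind with
    | h k l =>
      have hij : i ≠ j := by simpa using he
      have h1 := hc i (by simp)
      have h2 := hc j (by simp)
      apply h
      simp only [Sym2.mem_iff] at h1 h2
      rcases h1 with rfl | rfl <;> rcases h2 with rfl | rfl <;> simp_all [Sym2.eq_swap]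

lemma sum_chi_chi (e f : Pr n) :
    ∑ σ, chi σ e * chi σ f = if e = f then (Fintype.card (Fin n → Bool) : ℝ) else 0 := by
  split_ifs with h
  · subst h; simp [chi_sq]
  · obtain ⟨a, h1, h2⟩ := exists_mem_not h
    exact sum_odd a _ fun σ => by rw [chi_flip, chi_flip, if_pos h1, if_neg h2]; ring

lemma parseval (w : Pr n → ℝ) (β : ℝ) :
    (Fintype.card (Fin n → Bool) : ℝ) * (w ⬝ᵥ w) ≤ ∑ σ, (β + w ⬝ᵥ chi σ) ^ 2 := by
  have e : ∀ σ : Fin n → Bool, (β + w ⬝ᵥ chi σ) ^ 2 = β ^ 2 + ∑ e, 2 * β * w e * chi σ e +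
      ∑ e, ∑ f, w e * w f * (chi σ e * chi σ f) := by
    intro σ
    have h1 : (w ⬝ᵥ chi σ) ^ 2 = ∑ e, ∑ f, w e * w f * (chi σ e * chi σ f) := by
      rw [sq, dotProduct, sum_mul_sum]
      exact sum_congr rfl fun e _ => sum_congr rfl fun f _ => by ring
    have h2 : 2 * β * (w ⬝ᵥ chi σ) = ∑ e, 2 * β * w e * chi σ e := by
      rw [dotProduct, mul_sum]
      exact sum_congr rfl fun e _ => by ring
    rw [← h1, ← h2]; ring
  have a1 : ∑ σ : Fin n → Bool, ∑ e, 2 * β * w e * chi σ e = 0 := by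
    rw [sum_comm]
    simp [← mul_sum, sum_chi]
  have a2 : ∑ σ : Fin n → Bool, ∑ e, ∑ f, w e * w f * (chi σ e * chi σ f)
      = (Fintype.card (Fin n → Bool) : ℝ) * (w ⬝ᵥ w) := by
    rw [sum_comm, dotProduct, mul_sum]
    refine sum_congr rfl fun e _ => ?_
    rw [sum_comm]
    simp only [← mul_sum, sum_chi_chi, mul_ite, mul_zero, sum_ite_eq, mem_univ, if_true]
    ring
  simp only [e, sum_add_distrib, a1, a2]
  have : 0 ≤ ∑ _σ : Fin n → Bool, β ^ 2 := by positivity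
  linarith

lemma cut_mem (σ : Fin n → Bool) : (fun e => (1 - chi σ e) / 2) ∈ MP n := by
  refine ⟨fun ⟨e, he⟩ => ?_, fun i j k hij hjk hik => ?_⟩
  · induction e using Sym2.ind with
    | h i j =>
      simp only [chi, Sym2.lift_mk]
      cases σ i <;> cases σ j <;> norm_num [sg]
  · simp only [chi, Sym2.lift_mk]
    cases σ i <;> cases σ j <;> cases σ k <;> norm_num [sg]

lemma outer {A : Matrix (Pr n) (Pr n) ℝ} (hA : A.det ≠ 0) {v : Pr n → ℝ} {t : ℝ}
    (h : MP n ⊆ ell (t • A) v) : ∑ e, A⁻¹ e ⬝ᵥ A⁻¹ e ≤ 4 * t ^ 2 := by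
  have h1 : ∀ σ : Fin n → Bool,
      ∑ e, (A⁻¹ e ⬝ᵥ (fun f => 2 * v f - 1) + A⁻¹ e ⬝ᵥ chi σ) ^ 2 ≤ 4 * t ^ 2 := by
    intro σ
    obtain ⟨u, hu, hx⟩ := h (cut_mem σ)
    have e1 : (fun f => 2 * v f - 1) + chi σ = (-2 * t) • A *ᵥ u := by
      ext f
      have := congrFun hx f
      simp only [Pi.add_apply, smul_mulVec, Pi.smul_apply, smul_eq_mul] at this ⊢
      linarith
    have e2 : ∀ e, A⁻¹ e ⬝ᵥ (fun f => 2 * v f - 1) + A⁻¹ e ⬝ᵥ chi σ = -2 * t * u e := by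
      intro e
      rw [← dotProduct_add, e1]
      change (A⁻¹ *ᵥ _) e = _
      rw [mulVec_smul, mulVec_mulVec, nonsing_inv_mul _ hA.isUnit, one_mulVec]
      rfl
    simp only [e2, mul_pow, ← mul_sum]
    nlinarith [sq_nonneg t]
  have h2 := sum_le_sum fun σ (_ : σ ∈ univ) => h1 σ
  rw [sum_comm, sum_const, card_univ, nsmul_eq_mul] at h2
  have h3 := (sum_le_sum fun e (_ : e ∈ univ) =>
    parseval (A⁻¹ e) (A⁻¹ e ⬝ᵥ fun f => 2 * v f - 1)).trans h2
  rw [← mul_sum] at h3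
  exact le_of_mul_le_mul_left h3 (by exact_mod_cast Fintype.card_pos)

lemma facet {ι : Type} [Fintype ι] [DecidableEq ι] {A : Matrix ι ι ℝ} (hA : A.det ≠ 0)
    {c a : ι → ℝ} {b s : ℝ} (hs : 0 < s) (h : ∀ x ∈ ell A c, a ⬝ᵥ x ≤ b) :
    a ⬝ᵥ c + (a ⬝ᵥ a) * (3 / (2 * s) - (∑ e, (A⁻¹ e ⬝ᵥ a) ^ 2) / (2 * s ^ 3)) ≤ b := by
  set y := Aᵀ *ᵥ a with hy
  set p := √(∑ e, y e ^ 2) with hp
  set q := √(∑ e, (A⁻¹ e ⬝ᵥ a) ^ 2) with hq
  have hp0 : 0 ≤ p := Real.sqrt_nonneg _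
  have hq0 : 0 ≤ q := Real.sqrt_nonneg _
  have hp2 : p ^ 2 = ∑ e, y e ^ 2 := Real.sq_sqrt (by positivity)
  have hq2 : q ^ 2 = ∑ e, (A⁻¹ e ⬝ᵥ a) ^ 2 := Real.sq_sqrt (by positivity)
  have hd : ∀ u, a ⬝ᵥ (A *ᵥ u) = y ⬝ᵥ u := fun u => by rw [dotProduct_mulVec, ← mulVec_transpose]
  have h1 : a ⬝ᵥ c + p ≤ b := by
    rcases hp0.eq_or_lt with h0 | h0
    · have := h _ ⟨0, by simp, rfl⟩
      simpa [← h0] using this
    · have := h _ ⟨p⁻¹ • y, by
        simp only [Pi.smul_apply, smul_eq_mul, mul_pow, ← mul_sum, ← hp2]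
        rw [← mul_pow, inv_mul_cancel₀ h0.ne', one_pow], rfl⟩
      rw [dotProduct_add, hd, dotProduct_smul, ← sum_sq_eq, ← hp2, smul_eq_mul, sq,
        inv_mul_cancel_left₀ h0.ne'] at this
      exact this
  have h2 : a ⬝ᵥ a ≤ p * q := by
    have e : a ⬝ᵥ a = ∑ e, y e * (A⁻¹ e ⬝ᵥ a) := by
      have := hd (A⁻¹ *ᵥ a)
      rw [mulVec_mulVec, mul_nonsing_inv _ hA.isUnit, one_mulVec] at this
      exact this
    rw [e]
    exact Real.sum_mul_le_sqrt_mul_sqrt _ _ _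
  have h3 : 0 ≤ a ⬝ᵥ a := by rw [← sum_sq_eq]; positivity
  rw [← hq2]
  have h4 : q * (3 / (2 * s) - q ^ 2 / (2 * s ^ 3)) ≤ 1 := by
    have e : q * (3 / (2 * s) - q ^ 2 / (2 * s ^ 3))
        = 1 - (q - s) ^ 2 * (q + 2 * s) / (2 * s ^ 3) := by field_simp; ring
    rw [e]
    have : 0 ≤ (q - s) ^ 2 * (q + 2 * s) / (2 * s ^ 3) := by positivity
    linarith
  rcases le_total 0 (3 / (2 * s) - q ^ 2 / (2 * s ^ 3)) with h5 | h5
  · have := mul_le_mul_of_nonneg_right h2 h5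
    have := mul_le_mul_of_nonneg_left h4 hp0
    nlinarith
  · have := mul_nonpos_of_nonneg_of_nonpos h3 h5
    linarith

end Pool.Agent.P.MP_68beba_co.Best
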