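import Pool.Agent.P.MP_68beba_co.BestA

namespace Pool.Agent.P.MP_68beba_co.Best

open Matrix Finset Pool.Agent.P.MP_68beba_co

variable {n : ℕ}

lemma tri_dot (x : Pr n → ℝ) (i j k : Fin n) :
    (ε i k - ε i j - ε j k) ⬝ᵥ x = -(D x i j + D x j k - D x i k) := by
  simp only [sub_dotProduct, ε_dot]; ring

lemma tri_self {i j k : Fin n} (hij : i ≠ j) (hjk : j ≠ k) (hik : i ≠ k) :
    (ε i k - ε i j - ε j k) ⬝ᵥ (ε i k - ε i j - ε j k) = 3 := by
  simp only [dotProduct_sub, sub_dotProduct, ε_dot, D_ε _ _ _ _ hij, D_ε _ _ _ _ hjk,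
    D_ε _ _ _ _ hik]
  simp [hij, hjk, hik, hij.symm, hjk.symm, hik.symm]
  norm_num

lemma inner_one {A : Matrix (Pr n) (Pr n) ℝ} (hA : A.det ≠ 0) {c : Pr n → ℝ}
    (h : ell A c ⊆ MP n) {s : ℝ} (hs : 0 < s) :
    ∑ e, c e + n * (n - 1) / 2 * (3 / (2 * s)) - (∑ e, A⁻¹ e ⬝ᵥ A⁻¹ e) / (2 * s ^ 3)
      ≤ n * (n - 1) / 2 := by
  have h1 := sum_le_sum fun f (_ : f ∈ univ) => facet hA (c := c) (a := Pi.single f 1) (b := 1) hs
    fun x hx => by simpa using ((h hx).1 f).2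
  have e : ∑ f : Pr n, ∑ e, A⁻¹ e f ^ 2 = ∑ e, A⁻¹ e ⬝ᵥ A⁻¹ e := by
    rw [sum_comm]; simp only [sum_sq_eq]
  simp only [single_dotProduct, dotProduct_single, one_mul, mul_one, Pi.single_eq_same,
    sum_add_distrib, sum_sub_distrib, ← sum_div, e, sum_const, card_univ, nsmul_eq_mul,
    card_Pr] at h1
  have e2 : (n : ℝ) * (n - 1) / 2 * 3 / (2 * s) = n * (n - 1) / 2 * (3 / (2 * s)) := by ring
  linarith

lemma sum3 {f g k : Fin n → Fin n → Fin n → ℝ} {α β : ℝ}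
    (h : ∀ a b c, -f a b c + α * g a b c - β * k a b c ≤ 0) :
    -(∑ a, ∑ b, ∑ c, f a b c) + α * (∑ a, ∑ b, ∑ c, g a b c)
      - β * ∑ a, ∑ b, ∑ c, k a b c ≤ 0 := by
  have h2 := sum_nonpos fun a (_ : a ∈ univ) => sum_nonpos fun b (_ : b ∈ univ) =>
    sum_nonpos fun c (_ : c ∈ univ) => h a b c
  simpa only [sum_add_distrib, sum_sub_distrib, sum_neg_distrib, ← mul_sum] using h2

lemma inner_tri {A : Matrix (Pr n) (Pr n) ℝ} (hA : A.det ≠ 0) {c : Pr n → ℝ}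
    (h : ell A c ⊆ MP n) {s : ℝ} (hs : 0 < s) :
    -(2 * (n - 2) * ∑ e, c e) + 9 / (2 * s) * (2 * (n - 2) * (n * (n - 1) / 2))
      - 3 / (2 * s ^ 3) * (2 * ((3 * n - 4) * ∑ e, A⁻¹ e ⬝ᵥ A⁻¹ e)) ≤ 0 := by
  have h1 : ∀ i j k : Fin n,
      -((if i = k then 0 else 1) * (D c i j + D c j k - D c i k))
      + 9 / (2 * s) * ((if i = k then 0 else 1) *
        (D (fun _ => 1) i j + D (fun _ => 1) j k - D (fun _ => 1) i k))
      - 3 / (2 * s ^ 3) * ∑ e, (if i = k then 0 else 1) *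
        ((D (A⁻¹ e) i j + D (A⁻¹ e) j k - D (A⁻¹ e) i k) *
          (D (A⁻¹ e) i j + D (A⁻¹ e) j k - D (A⁻¹ e) i k)) ≤ 0 := by
    intro i j k
    by_cases hik : i = k
    · simp [hik]
    by_cases hij : i = j
    · simp [hij, D_self]
    by_cases hjk : j = k
    · simp [hjk, D_self]
    have h2 := facet hA (c := c) (a := ε i k - ε i j - ε j k) (b := 0) hs fun x hx => by
      rw [tri_dot]; linarith [(MP_D (h hx)).2 i j k]
    rw [tri_self hij hjk hik, tri_dot] at h2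
    simp only [dotProduct_comm (A⁻¹ _), tri_dot, neg_sq] at h2
    simp only [if_neg hik, one_mul, D_const, if_neg hij, if_neg hjk, ← sq]
    have e1 : ∀ S : ℝ, 3 * (3 / (2 * s) - S / (2 * s ^ 3))
        = 9 / (2 * s) * (1 + 1 - 1) - 3 / (2 * s ^ 3) * S := fun S => by ring
    rw [e1] at h2
    linarith
  have h2 := sum3 h1
  rw [tri_lin, tri_lin] at h2
  have e2 : ∑ i, ∑ j, ∑ k, ∑ e, (if i = k then 0 else 1) *
      ((D (A⁻¹ e) i j + D (A⁻¹ e) j k - D (A⁻¹ e) i k) *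
        (D (A⁻¹ e) i j + D (A⁻¹ e) j k - D (A⁻¹ e) i k))
      ≤ 2 * ((3 * n - 4) * ∑ e, A⁻¹ e ⬝ᵥ A⁻¹ e) := by
    rw [sum_congr rfl fun i _ => sum_congr rfl fun j _ => sum_comm,
      sum_congr rfl fun i _ => sum_comm, sum_comm, mul_sum, mul_sum]
    refine sum_le_sum fun e _ => ?_
    rw [tri_sum]
    have : 0 ≤ (B n *ᵥ A⁻¹ e) ⬝ᵥ (B n *ᵥ A⁻¹ e) := by rw [← sum_sq_eq]; positivity
    linarith
  have e3 := mul_le_mul_of_nonneg_left e2 (by positivity : 0 ≤ 3 / (2 * s ^ 3))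
  simp only [sum_const, card_univ, nsmul_eq_mul, card_Pr, mul_one] at h2
  linarith

theorem lower (hn : 3 ≤ n) {A : Matrix (Pr n) (Pr n) ℝ} (hA : A.det ≠ 0) {c v : Pr n → ℝ} {t : ℝ}
    (ht : 0 < t) (h1 : ell A c ⊆ MP n) (h2 : MP n ⊆ ell (t • A) v) :
    (√6 + √2) / 4 * n - 3 ≤ t := by
  have hx : (3 : ℝ) ≤ n := by exact_mod_cast hn
  set x : ℝ := (n : ℝ) with hxd
  have hF := outer hA h2
  set F := ∑ e, A⁻¹ e ⬝ᵥ A⁻¹ e with hFd
  set a := √2 with ha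
  set w := √3 with hw
  have a2 : a ^ 2 = 2 := Real.sq_sqrt (by norm_num)
  have w2 : w ^ 2 = 3 := Real.sq_sqrt (by norm_num)
  have a0 : 0 < a := by positivity
  have w0 : 0 < w := by positivity
  have a1 : a ≤ 3 / 2 := by nlinarith
  have w1 : w ≤ 7 / 4 := by nlinarith
  have e6 : √6 = a * w := by rw [ha, hw, ← Real.sqrt_mul (by norm_num)]; norm_num
  have hx1 : 0 < x - 1 := by linarith
  have hx2 : 0 < x - 2 := by linarith
  have i1 := inner_one hA h1 (s := 2 * t * a / (x - 1)) (by positivity)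
  have i2 := inner_tri hA h1 (s := 2 * t * a * w * x / (x - 1) ^ 2) (by positivity)
  rw [← hFd, ← hxd] at i1 i2
  have b1 : F / (2 * (2 * t * a / (x - 1)) ^ 3) ≤ (x - 1) ^ 3 / (8 * t * a) := by
    refine (div_le_div_of_nonneg_right hF (by positivity)).trans (le_of_eq ?_)
    field_simp
    linear_combination (-16) * a2
  have b2 : 3 / (2 * (2 * t * a * w * x / (x - 1) ^ 2) ^ 3) * (2 * ((3 * x - 4) * F))
      ≤ (3 * x - 4) * (x - 1) ^ 6 / (4 * t * a * w * x ^ 3) := by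
    refine (mul_le_mul_of_nonneg_left (mul_le_mul_of_nonneg_left (mul_le_mul_of_nonneg_left hF
      (by linarith)) zero_le_two) (by positivity)).trans (le_of_eq ?_)
    field_simp
    linear_combination (-(24 * x - 32) * w ^ 2) * a2 - 2 * (24 * x - 32) * w2
  have b3 : (x - 1) ^ 3 / (8 * t * a) ≤ x * (x - 1) ^ 2 / (8 * t * a) :=
    div_le_div_of_nonneg_right (by nlinarith [sq_nonneg (x - 1)]) (by positivity)
  have b4 : (3 * x - 4) * (x - 1) ^ 6 / (4 * t * a * w * x ^ 3)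
      ≤ 3 * (x - 2) * (x - 1) ^ 3 / (4 * t * a * w) := by
    rw [div_le_div_iff₀ (by positivity) (by positivity)]
    have p1 : (3 * x - 4) * (x - 1) ^ 3 ≤ 3 * (x - 2) * x ^ 3 := by
      obtain ⟨y, hy⟩ : ∃ y, x = y + 3 := ⟨x - 3, by ring⟩
      have hy0 : 0 ≤ y := by linarith
      rw [hy]
      nlinarith [pow_nonneg hy0 2, pow_nonneg hy0 3]
    have := mul_le_mul_of_nonneg_right p1 (by positivity : 0 ≤ (x - 1) ^ 3 * (4 * t * a * w))
    linarith
  have c1 : x * (x - 1) / 2 * (3 / (2 * (2 * t * a / (x - 1))))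
      = 3 * (x * (x - 1) ^ 2 / (8 * t * a)) := by field_simp; ring
  have c2 : 9 / (2 * (2 * t * a * w * x / (x - 1) ^ 2)) * (2 * (x - 2) * (x * (x - 1) / 2))
      = 3 * (3 * (x - 2) * (x - 1) ^ 3 / (4 * t * a * w)) := by field_simp; ring
  have d1 : ∑ e, c e + 2 * (x * (x - 1) ^ 2 / (8 * t * a)) ≤ x * (x - 1) / 2 := by linarith
  have d2 : 2 * (x - 2) * (3 * (x - 1) ^ 3 / (4 * t * a * w)) ≤ 2 * (x - 2) * ∑ e, c e := by
    have : 2 * (x - 2) * (3 * (x - 1) ^ 3 / (4 * t * a * w))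
        = 2 * (3 * (x - 2) * (x - 1) ^ 3 / (4 * t * a * w)) := by ring
    linarith
  have d3 := le_of_mul_le_mul_left d2 (by positivity)
  have d4 : (x - 1) / (t * a) * (w * (x - 1) ^ 2 + x * (x - 1)) / 4 ≤ x * (x - 1) / 2 := by
    have : (x - 1) / (t * a) * (w * (x - 1) ^ 2 + x * (x - 1)) / 4
        = 3 * (x - 1) ^ 3 / (4 * t * a * w) + 2 * (x * (x - 1) ^ 2 / (8 * t * a)) := by
      field_simp
      linear_combination (8 * (x - 1)) * w2
    linarith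
  have d5 : w * (x - 1) ^ 2 + x * (x - 1) ≤ 2 * x * (t * a) := by
    have h3 : (x - 1) * (w * (x - 1) ^ 2 + x * (x - 1)) ≤ (x - 1) * (2 * x * (t * a)) := by
      have h4 := mul_le_mul_of_nonneg_right d4 (by positivity : 0 ≤ 4 * (t * a))
      have e : (x - 1) / (t * a) * (w * (x - 1) ^ 2 + x * (x - 1)) / 4 * (4 * (t * a))
          = (x - 1) * (w * (x - 1) ^ 2 + x * (x - 1)) := by field_simp
      linarith
    exact le_of_mul_le_mul_left h3 hx1
  have d6 : x * (w * (x - 2) + (x - 1)) ≤ x * (2 * (t * a)) := by nlinarith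
  have d7 := mul_le_mul_of_nonneg_left (le_of_mul_le_mul_left d6 (by linarith)) a0.le
  have d8 : a * (2 * (t * a)) = 4 * t := by linear_combination 2 * t * a2
  rw [e6]
  nlinarith [mul_le_mul a1 w1 w0.le (by norm_num)]

end Pool.Agent.P.MP_68beba_co.Best
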