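import Pool.Agent.P.MP_68beba_co.BestB

namespace Pool.Agent.P.MP_68beba_co.Best

open Matrix Finset Pool.Agent.P.MP_68beba_co

section
variable {ι : Type} [Fintype ι] [DecidableEq ι]

/-- identity plus a multiple of the all ones matrix -/
def IJ (ι : Type) [DecidableEq ι] (r g : ℝ) : Matrix ι ι ℝ :=
  Matrix.of fun e f => r * ((if e = f then 1 else 0) + g)

lemma IJ_mulVec (r g : ℝ) (u : ι → ℝ) : IJ ι r g *ᵥ u = fun e => r * (u e + g * ∑ f, u f) := by
  ext e
  simp [IJ, mulVec, dotProduct, mul_assoc, add_mul, ← mul_sum, sum_add_distrib]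

lemma IJ_det {r g : ℝ} (hr : r ≠ 0) (hg : 0 ≤ g) : (IJ ι r g).det ≠ 0 := by
  intro h
  obtain ⟨u, hu, h0⟩ := Matrix.exists_mulVec_eq_zero_iff.2 h
  rw [IJ_mulVec] at h0
  have h1 : ∀ e, u e + g * ∑ f, u f = 0 := fun e =>
    (mul_eq_zero.1 (congrFun h0 e)).resolve_left hr
  have h2 := sum_congr rfl fun e (_ : e ∈ univ) => h1 e
  rw [sum_add_distrib, sum_const, sum_const, card_univ, nsmul_eq_mul, smul_zero] at h2
  have h3 : (∑ f, u f) * (1 + Fintype.card ι * g) = 0 := by linarith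
  have h4 := (mul_eq_zero.1 h3).resolve_right (by positivity)
  exact hu (funext fun e => by simpa [h4] using h1 e)

lemma IJ_dot {r g ρ : ℝ} (hr : 0 ≤ r) (hρ : 0 ≤ ρ) {a u : ι → ℝ} (hu : ∑ e, u e ^ 2 ≤ 1)
    (ha : a ⬝ᵥ a + (2 * g + Fintype.card ι * g ^ 2) * (∑ e, a e) ^ 2 ≤ ρ ^ 2) :
    a ⬝ᵥ (IJ ι r g *ᵥ u) ≤ r * ρ := by
  have e1 : a ⬝ᵥ (IJ ι r g *ᵥ u) = r * ∑ e, (a e + g * ∑ f, a f) * u e := by
    rw [IJ_mulVec]
    simp only [dotProduct, add_mul, mul_add, sum_add_distrib, ← mul_sum, ← sum_mul, mul_left_comm _ r]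
    ring
  have e2 : ∑ e, (a e + g * ∑ f, a f) ^ 2
      = a ⬝ᵥ a + (2 * g + Fintype.card ι * g ^ 2) * (∑ e, a e) ^ 2 := by
    simp only [add_sq, sum_add_distrib, ← sum_mul, ← mul_sum, sum_const, card_univ, nsmul_eq_mul,
      sum_sq_eq]
    ring
  rw [e1]
  refine mul_le_mul_of_nonneg_left ((le_abs_self _).trans (abs_le_of_sq_le_sq ?_ hρ)) hr
  refine (Finset.sum_mul_sq_le_sq_mul_sq _ _ _).trans ?_
  rw [e2]
  calc _ ≤ ρ ^ 2 * 1 := by gcongr
    _ = _ := mul_one _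

lemma IJ_outer (hm0 : (0 : ℝ) < Fintype.card ι) {r g κ ρ σ δ : ℝ} (r0 : 0 < r) (k0 : 0 < κ)
    (hr1 : r * σ = 1) (hmg : Fintype.card ι * g = κ - 1) (ρ0 : 0 < ρ) (d1 : 0 ≤ δ) (d2 : δ ≤ 1)
    (hρ : Fintype.card ι / 4 + Fintype.card ι / κ ^ 2 ≤ ρ ^ 2) {d : ι → ℝ}
    (hd : ∀ e, 0 ≤ d e ∧ d e ≤ 1) : d ∈ ell ((ρ * σ) • IJ ι r g) fun _ => δ := by
  obtain ⟨m, hmd⟩ : ∃ m : ℝ, m = Fintype.card ι := ⟨_, rfl⟩
  rw [← hmd] at hm0 hmg hρ
  obtain ⟨μ, hμ⟩ : ∃ μ : ℝ, μ = (∑ e, d e) / m := ⟨_, rfl⟩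
  have hS : ∑ e, d e = m * μ := by rw [hμ]; field_simp
  have hsum : ∑ e, (d e - μ + (μ - δ) / κ) / ρ = m * ((μ - δ) / κ) / ρ := by
    simp only [← sum_div, sum_add_distrib, sum_sub_distrib, sum_const, card_univ, nsmul_eq_mul,
      hS, ← hmd]
    ring
  refine ⟨fun e => (d e - μ + (μ - δ) / κ) / ρ, ?_, ?_⟩
  · have e1 : ∀ e, ((d e - μ + (μ - δ) / κ) / ρ) ^ 2 ≤ (1 / 4 + (2 * ((μ - δ) / κ) + 1 - 2 * μ)
        * (d e - μ) - (μ - 1 / 2) ^ 2 + ((μ - δ) / κ) ^ 2) / ρ ^ 2 := fun e => by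
      rw [div_pow]
      refine div_le_div_of_nonneg_right ?_ (by positivity)
      linarith [mul_nonneg (hd e).1 (sub_nonneg.2 (hd e).2)]
    refine (sum_le_sum fun e _ => e1 e).trans ?_
    simp only [← sum_div, sum_add_distrib, sum_sub_distrib, ← mul_sum, sum_const, card_univ,
      nsmul_eq_mul, hS, ← hmd]
    rw [div_le_one (by positivity)]
    have m1 : 0 ≤ μ := hμ ▸ div_nonneg (sum_nonneg fun e _ => (hd e).1) hm0.le
    have m2 : μ ≤ 1 := by
      rw [hμ, div_le_one hm0, hmd]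
      simpa using sum_le_sum fun e (_ : e ∈ univ) => (hd e).2
    have m3 : ((μ - δ) / κ) ^ 2 ≤ 1 / κ ^ 2 := by
      rw [div_pow]
      exact div_le_div_of_nonneg_right (by nlinarith) (by positivity)
    have m4 := mul_le_mul_of_nonneg_left m3 hm0.le
    have m7 := mul_nonneg hm0.le (sq_nonneg (μ - 1 / 2))
    rw [mul_one_div] at m4
    linarith
  · ext e
    rw [Pi.add_apply, smul_mulVec, IJ_mulVec, hsum]
    simp only [Pi.smul_apply, smul_eq_mul]
    have e2 : ρ * σ * (r * ((d e - μ + (μ - δ) / κ) / ρ + g * (m * ((μ - δ) / κ) / ρ)))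
        = r * σ * (d e - μ + (1 + m * g) * ((μ - δ) / κ)) := by field_simp; ring
    rw [e2, hr1, hmg]
    field_simp
    ring

end

variable {n : ℕ}

theorem upper (hn : 3 ≤ n) : ∃ (A : Matrix (Pr n) (Pr n) ℝ) (c : Pr n → ℝ) (t : ℝ),
    A.det ≠ 0 ∧ 0 < t ∧ ell A c ⊆ MP n ∧ MP n ⊆ ell (t • A) c ∧ t ≤ (√6 + √2) / 4 * n + 3 := by
  have hx : (3 : ℝ) ≤ n := by exact_mod_cast hn
  have hm := card_Pr (n := n)
  set x : ℝ := (n : ℝ) with hxd
  set m : ℝ := (Fintype.card (Pr n) : ℝ) with hmd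
  have hm0 : 0 < m := by rw [hm]; nlinarith
  set a := √2 with ha
  set w := √3 with hw
  set κ := √x with hκ
  have a2 : a ^ 2 = 2 := Real.sq_sqrt (by norm_num)
  have w2 : w ^ 2 = 3 := Real.sq_sqrt (by norm_num)
  have k2 : κ ^ 2 = x := Real.sq_sqrt (by linarith)
  have a0 : 0 < a := by positivity
  have w0 : 0 < w := by positivity
  have k0 : 0 < κ := Real.sqrt_pos.2 (by linarith)
  have k1 : 1 ≤ κ := by nlinarith
  have a1 : a ≤ 3 / 2 := by nlinarith
  have a3 : 7 / 5 ≤ a := by nlinarith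
  have w1 : w ≤ 7 / 4 := by nlinarith
  have w3 : 1 ≤ w := by nlinarith
  have e6 : √6 = a * w := by rw [ha, hw, ← Real.sqrt_mul (by norm_num)]; norm_num
  have x0 : 0 < x := by linarith
  have hx1 : 0 < x - 1 := by linarith
  set y := 1 / x with hy
  have y0 : 0 < y := by positivity
  have hxy : x * y = 1 := by rw [hy]; field_simp
  have y1 : y ≤ 1 / 3 := by nlinarith
  set r := 1 / (1 + w + 2 * y) with hr
  have r0 : 0 < r := by positivity
  have hr1 : r * (1 + w + 2 * y) = 1 := by rw [hr]; field_simp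
  set g := (κ - 1) / m with hg
  have g0 : 0 ≤ g := div_nonneg (by linarith) hm0.le
  have hmg : m * g = κ - 1 := by rw [hg]; field_simp
  have hη : 2 * g + m * g ^ 2 = 2 * y := by
    have h1 : m * (2 * g + m * g ^ 2) = m * (2 * y) := by
      have : m * (2 * y) = x - 1 := by rw [hm]; linear_combination (x - 1) * hxy
      linear_combination (κ + 1 + m * g) * hmg + k2 - this
    exact mul_left_cancel₀ hm0.ne' h1
  refine ⟨IJ _ r g, fun _ => r * (w + y), (a * x / 4 + 3 / 5) * (1 + w + 2 * y),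
    IJ_det r0.ne' g0, by positivity, ?_, fun d hd => ?_, ?_⟩
  · rintro _ ⟨u, hu, rfl⟩
    refine mem_MP hn (fun i j => ?_) fun i j k hik => ?_
    · by_cases hij : i = j
      · simp [hij, D_self]
      have s1 : ∑ e, ε i j e = 1 := by
        simpa [dotProduct, D_const, hij] using ε_dot (fun _ => 1) i j
      have s2 : ε i j ⬝ᵥ ε i j = 1 := by
        rw [ε_dot, D_ε _ _ _ _ hij]; simp [hij]
      have h1 := IJ_dot (r := r) (g := g) (ρ := 1 + y) r0.le (by positivity) (a := ε i j) hu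
        (by rw [s1, s2, ← hmd, hη]; nlinarith)
      rw [← ε_dot, dotProduct_add, ε_dot, D_const, if_neg hij]
      linarith
    · by_cases hij : i = j
      · simp [hij, D_self]
      by_cases hjk : j = k
      · simp [hjk, D_self]
      have s1 : ∑ e, (ε i k - ε i j - ε j k) e = -1 := by
        have := tri_dot (fun _ => 1) i j k
        simpa [dotProduct, D_const, hij, hjk, hik] using this
      have h1 := IJ_dot (r := r) (g := g) (ρ := w + y) r0.le (by positivity)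
        (a := ε i k - ε i j - ε j k) hu
        (by rw [s1, tri_self hij hjk hik, ← hmd, hη]; nlinarith)
      have h2 := tri_dot ((fun _ => r * (w + y)) + IJ _ r g *ᵥ u) i j k
      rw [dotProduct_add, tri_dot, D_const, D_const, D_const, if_neg hij, if_neg hjk,
        if_neg hik] at h2
      linarith
  · refine IJ_outer (by exact hm0) r0 k0 hr1 hmg (by positivity) (by positivity)
      (by linarith [mul_pos r0 y0]) ?_ hd.1
    have m5 : m / κ ^ 2 = (x - 1) / 2 := by rw [k2, hm]; field_simp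
    have m6 : (a * x / 4 + 3 / 5) ^ 2 = x ^ 2 / 8 + 3 / 10 * (a * x) + 9 / 25 := by
      linear_combination x ^ 2 / 16 * a2
    rw [← hmd, m5, m6, hm]
    linarith [mul_le_mul_of_nonneg_right a3 x0.le]
  · rw [e6]
    have : a * x / 4 * (2 * y) = a / 2 := by linear_combination a / 2 * hxy
    nlinarith

end Pool.Agent.P.MP_68beba_co.Best
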