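import Mathlib

/-!
A sufficient condition for an ellipsoid to be the largest one inscribed in a polytope.
-/

namespace Pool.Agent.P.MP_68beba_co

open Matrix MeasureTheory

variable {ι : Type} [Fintype ι] [DecidableEq ι]

/-- the ellipsoid with centre `c`, image of the Euclidean unit ball under `A` -/
def ell (A : Matrix ι ι ℝ) (c : ι → ℝ) : Set (ι → ℝ) :=
  {x | ∃ u : ι → ℝ, ∑ e, u e ^ 2 ≤ 1 ∧ x = c + A.mulVec u}

/-- `ell A c` is an ellipsoid of largest volume contained in `K` -/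
def IsJohn (K : Set (ι → ℝ)) (A : Matrix ι ι ℝ) (c : ι → ℝ) : Prop :=
  A.det ≠ 0 ∧ ell A c ⊆ K ∧ ∀ (A' : Matrix ι ι ℝ) (c' : ι → ℝ), A'.det ≠ 0 → ell A' c' ⊆ K →
    volume (ell A' c') ≤ volume (ell A c)

omit [DecidableEq ι] in
lemma amgm {s : ι → ℝ} (h0 : ∀ i, 0 < s i) (h : ∑ i, s i ≤ Fintype.card ι) :
    ∏ i, s i ≤ 1 ∧ (1 ≤ ∏ i, s i → ∀ i, s i = 1) := by
  have h1 : ∀ i, s i ≤ Real.exp (s i - 1) := fun i => by
    linarith [Real.add_one_le_exp (s i - 1)]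
  have h2 : ∏ i, Real.exp (s i - 1) ≤ 1 := by
    rw [← Real.exp_sum, Real.exp_le_one_iff, Finset.sum_sub_distrib]
    simpa using h
  refine ⟨(Finset.prod_le_prod (fun i _ => (h0 i).le) fun i _ => h1 i).trans h2, fun h3 i => ?_⟩
  by_contra hi
  have := Finset.prod_lt_prod (s := Finset.univ) (fun i _ => h0 i) (fun i _ => h1 i)
    ⟨i, Finset.mem_univ i, by linarith [Real.add_one_lt_exp (sub_ne_zero.2 hi)]⟩
  linarith

lemma exists_diag {W : Matrix ι ι ℝ} (hW : Wᵀ = W) : ∃ (V : Matrix ι ι ℝ) (w : ι → ℝ),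
    Vᵀ * V = 1 ∧ Vᵀ * W * V = diagonal w := by
  have h : W.IsHermitian := by simpa [IsHermitian] using hW
  refine ⟨h.eigenvectorUnitary, h.eigenvalues, ?_, ?_⟩
  · simpa [star_eq_conjTranspose] using h.eigenvectorUnitary.2.1
  · simpa [star_eq_conjTranspose] using h.conjStarAlgAut_star_eigenvectorUnitary

omit [DecidableEq ι] in
lemma sum_sq_eq (u : ι → ℝ) : ∑ e, u e ^ 2 = u ⬝ᵥ u := by simp [dotProduct, sq]

omit [DecidableEq ι] in
lemma mulVec_dot (A B : Matrix ι ι ℝ) (u v : ι → ℝ) :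
    (A *ᵥ u) ⬝ᵥ (B *ᵥ v) = u ⬝ᵥ ((Aᵀ * B) *ᵥ v) := by
  rw [← mulVec_mulVec, dotProduct_mulVec u, vecMul_transpose]

lemma exists_Z {M K : Matrix ι ι ℝ} (hM : Mᵀ = M) (hMK : M * K = 1)
    (hpos : ∀ x, 0 ≤ x ⬝ᵥ (M *ᵥ x)) {A : Matrix ι ι ℝ} (hA : A.det ≠ 0) :
    ∃ (V Z : Matrix ι ι ℝ) (s : ι → ℝ), (∀ i, 0 < s i) ∧ Vᵀ * V = 1 ∧ A * V = Z * diagonal s ∧
      Zᵀ * M * Z = 1 ∧ Z * Zᵀ = K ∧ A.det ^ 2 * M.det = (∏ i, s i) ^ 2 := by
  obtain ⟨V, w, hV, hw⟩ := exists_diag (W := Aᵀ * M * A) (by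
    simp [transpose_mul, hM, Matrix.mul_assoc])
  have hMd : M.det ≠ 0 := left_ne_zero_of_mul_eq_one (by rw [← det_mul, hMK, det_one])
  have hVd : V.det ^ 2 = 1 := by
    have := congrArg det hV
    rwa [det_mul, det_transpose, det_one, ← sq] at this
  have hd : A.det ^ 2 * M.det = ∏ i, w i := by
    have := congrArg det hw
    simp only [det_mul, det_transpose, det_diagonal] at this
    linear_combination this - A.det ^ 2 * M.det * hVd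
  have hw0 : ∀ i, 0 < w i := by
    intro i
    refine lt_of_le_of_ne ?_ (Finset.prod_ne_zero_iff.1
      (hd ▸ mul_ne_zero (pow_ne_zero 2 hA) hMd) i (Finset.mem_univ i)).symm
    have := hpos ((A * V) *ᵥ Pi.single i 1)
    rw [mulVec_mulVec, mulVec_dot, transpose_mul,
      show Vᵀ * Aᵀ * (M * (A * V)) = Vᵀ * (Aᵀ * M * A) * V by simp only [Matrix.mul_assoc], hw]
      at this
    simpa using this
  have hs : ∀ i, 0 < √(w i) := fun i => Real.sqrt_pos.2 (hw0 i)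
  have hZ : (A * V * diagonal fun i => (√(w i))⁻¹)ᵀ * M * (A * V * diagonal fun i => (√(w i))⁻¹)
      = 1 := by
    rw [transpose_mul, transpose_mul, diagonal_transpose,
      show (diagonal fun i => (√(w i))⁻¹) * (Vᵀ * Aᵀ) * M * (A * V * diagonal fun i => (√(w i))⁻¹)
        = (diagonal fun i => (√(w i))⁻¹) * (Vᵀ * (Aᵀ * M * A) * V) * diagonal fun i => (√(w i))⁻¹
        by simp only [Matrix.mul_assoc], hw, diagonal_mul_diagonal, diagonal_mul_diagonal,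
      ← diagonal_one]
    congr 1
    ext i
    have := (hs i).ne'
    field_simp
    rw [Real.sq_sqrt (hw0 i).le]
  refine ⟨V, A * V * diagonal fun i => (√(w i))⁻¹, fun i => √(w i), hs, hV, ?_, hZ, ?_, ?_⟩
  · rw [Matrix.mul_assoc (A * V), diagonal_mul_diagonal]
    simp [inv_mul_cancel₀ (hs _).ne']
  · generalize (A * V * diagonal fun i => (√(w i))⁻¹) = Z at hZ
    rw [mul_eq_one_comm] at hZ
    rw [← Matrix.mul_one (Z * Zᵀ), ← hMK, ← Matrix.mul_assoc, Matrix.mul_assoc Z, hZ,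
      Matrix.one_mul]
  · rw [hd, ← Finset.prod_pow]
    exact Finset.prod_congr rfl fun i _ => (Real.sq_sqrt (hw0 i).le).symm

lemma john_dual {κ : Type} [Fintype κ] (a : κ → ι → ℝ) (μ ρ h : κ → ℝ) {M K : Matrix ι ι ℝ}
    (hM : Mᵀ = M) (hMK : M * K = 1) (hμ : ∀ k, 0 ≤ μ k) (hρ : ∀ k, 0 < ρ k)
    (hb : ∀ x y, x ⬝ᵥ (M *ᵥ y) = ∑ k, μ k * ((a k ⬝ᵥ x) * (a k ⬝ᵥ y)))
    (hK : ∀ k, μ k ≠ 0 → a k ⬝ᵥ (K *ᵥ a k) ≤ ρ k ^ 2) {A : Matrix ι ι ℝ} (hA : A.det ≠ 0)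
    (hh : ∀ k u, ∑ e, u e ^ 2 ≤ 1 → a k ⬝ᵥ (A *ᵥ u) ≤ h k)
    (hs : ∑ k, μ k * (ρ k * h k) ≤ Fintype.card ι) :
    A.det ^ 2 * M.det ≤ 1 ∧ (1 ≤ A.det ^ 2 * M.det → Aᵀ * M * A = 1) := by
  obtain ⟨V, Z, s, hs0, hV, hAV, hZ, hZK, hd⟩ := exists_Z hM hMK (fun x => by
    rw [hb]
    exact Finset.sum_nonneg fun k _ => mul_nonneg (hμ k) (mul_self_nonneg _)) hA
  have h1 : ∑ i, s i = ∑ k, μ k * (a k ⬝ᵥ (A *ᵥ (V *ᵥ (Zᵀ *ᵥ a k)))) := by
    have e1 : ∀ i, s i = ((A * V) *ᵥ Pi.single i 1) ⬝ᵥ (M *ᵥ (Z *ᵥ Pi.single i 1)) := by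
      intro i
      rw [mulVec_mulVec, mulVec_dot, hAV, transpose_mul, Matrix.mul_assoc, ← Matrix.mul_assoc Zᵀ, hZ]
      simp
    simp only [e1, hb]
    rw [Finset.sum_comm]
    refine Finset.sum_congr rfl fun k _ => ?_
    rw [← Finset.mul_sum, mulVec_mulVec, mulVec_mulVec, ← mulVec_mulVec, dotProduct_mulVec _ (A * V),
      mulVec_transpose]
    simp [dotProduct, vecMul]
  have h2 : ∑ i, s i ≤ Fintype.card ι := by
    refine h1.trans_le (le_trans (Finset.sum_le_sum fun k _ => ?_) hs)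
    by_cases hk : μ k = 0
    · simp [hk]
    refine mul_le_mul_of_nonneg_left ?_ (hμ k)
    have e1 := hh k ((ρ k)⁻¹ • (V *ᵥ (Zᵀ *ᵥ a k))) (by
      rw [sum_sq_eq, smul_dotProduct, dotProduct_smul, mulVec_dot, hV, one_mulVec, mulVec_dot,
        transpose_transpose, hZK, smul_eq_mul, smul_eq_mul, ← mul_assoc, ← sq, inv_pow,
        inv_mul_le_iff₀ (pow_pos (hρ k) 2), mul_one]
      exact hK k hk)
    rwa [mulVec_smul, dotProduct_smul, smul_eq_mul, inv_mul_le_iff₀ (hρ k)] at e1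
  obtain ⟨h3, h4⟩ := amgm hs0 h2
  have h5 : 0 < ∏ i, s i := Finset.prod_pos fun i _ => hs0 i
  rw [hd]
  refine ⟨pow_le_one₀ h5.le h3, fun h6 => ?_⟩
  have h7 : s = fun _ => 1 := funext (h4 (by nlinarith))
  rw [h7, diagonal_one, Matrix.mul_one] at hAV
  have hV' : V * Vᵀ = 1 := mul_eq_one_comm.1 hV
  have hA' : A = Z * Vᵀ := by rw [← hAV, Matrix.mul_assoc, hV', Matrix.mul_one]
  rw [hA', transpose_mul, transpose_transpose,
    show V * Zᵀ * M * (Z * Vᵀ) = V * (Zᵀ * M * Z) * Vᵀ by simp only [Matrix.mul_assoc], hZ,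
    Matrix.mul_one, hV']

lemma volume_ell (A : Matrix ι ι ℝ) (c : ι → ℝ) :
    volume (ell A c) = ENNReal.ofReal |A.det| * volume {u : ι → ℝ | ∑ e, u e ^ 2 ≤ 1} := by
  have : ell A c = (c + ·) '' (Matrix.toLin' A '' {u : ι → ℝ | ∑ e, u e ^ 2 ≤ 1}) := by
    ext x
    simp only [ell, Set.mem_ofPred_eq, Set.mem_image, toLin'_apply, exists_exists_and_eq_and]
    simp only [eq_comm]
  rw [this, Set.image_add_left, measure_preimage_add, Measure.addHaar_image_linearMap,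
    LinearMap.det_toLin']

omit [DecidableEq ι] in
lemma volume_ball_ne : volume {u : ι → ℝ | ∑ e, u e ^ 2 ≤ 1} ≠ 0 ∧
    volume {u : ι → ℝ | ∑ e, u e ^ 2 ≤ 1} ≠ ⊤ := by
  constructor
  · have h : IsOpen {u : ι → ℝ | ∑ e, u e ^ 2 < 1} := isOpen_lt (by fun_prop) continuous_const
    exact ((h.measure_pos volume ⟨0, by simp⟩).trans_le
      (measure_mono (Set.ofPred_subset_ofPred.2 fun u hu => hu.le))).ne'
  · refine ((measure_mono fun u hu => ?_).trans_lt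
      (measure_closedBall_lt_top (x := (0 : ι → ℝ)) (r := 1))).ne
    rw [mem_closedBall_zero_iff, pi_norm_le_iff_of_nonneg zero_le_one]
    intro i
    exact (sq_le_one_iff_abs_le_one _).1 (le_trans (Finset.single_le_sum (f := fun e => u e ^ 2)
      (fun _ _ => sq_nonneg _) (Finset.mem_univ i)) hu)

lemma volume_le_iff (A A' : Matrix ι ι ℝ) (c c' : ι → ℝ) :
    volume (ell A' c') ≤ volume (ell A c) ↔ A'.det ^ 2 ≤ A.det ^ 2 := by
  rw [volume_ell, volume_ell, ENNReal.mul_le_mul_iff_left volume_ball_ne.1 volume_ball_ne.2,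
    ENNReal.ofReal_le_ofReal_iff (abs_nonneg _), sq_le_sq]

omit [DecidableEq ι] in
lemma dot_le {Z K : Matrix ι ι ℝ} (hZK : Z * Zᵀ = K) {a u : ι → ℝ} {ρ : ℝ} (hρ : 0 ≤ ρ)
    (ha : a ⬝ᵥ (K *ᵥ a) ≤ ρ ^ 2) (hu : ∑ e, u e ^ 2 ≤ 1) : |a ⬝ᵥ (Z *ᵥ u)| ≤ ρ := by
  refine abs_le_of_sq_le_sq ?_ hρ
  rw [dotProduct_mulVec, ← mulVec_transpose]
  refine (Finset.sum_mul_sq_le_sq_mul_sq _ _ _).trans ?_
  rw [sum_sq_eq, mulVec_dot, transpose_transpose, hZK]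
  calc _ ≤ ρ ^ 2 * 1 := by gcongr
    _ = _ := mul_one _

lemma mem_homothety {A M : Matrix ι ι ℝ} (hA : A.det ≠ 0) (h : Aᵀ * M * A = 1) (c x : ι → ℝ)
    {t : ℝ} (ht : 0 < t) :
    x ∈ AffineMap.homothety c t '' ell A c ↔ (x - c) ⬝ᵥ (M *ᵥ (x - c)) ≤ t ^ 2 := by
  have key : ∀ u : ι → ℝ, (t • A *ᵥ u) ⬝ᵥ (M *ᵥ (t • A *ᵥ u)) = t ^ 2 * ∑ e, u e ^ 2 := by
    intro u
    rw [mulVec_smul, smul_dotProduct, dotProduct_smul, mulVec_mulVec, mulVec_dot,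
      ← Matrix.mul_assoc, h, one_mulVec, sum_sq_eq, smul_eq_mul, smul_eq_mul]
    ring
  constructor
  · rintro ⟨_, ⟨u, hu, rfl⟩, rfl⟩
    simp only [AffineMap.homothety_apply, vsub_eq_sub, add_sub_cancel_left, vadd_eq_add,
      add_sub_cancel_right, key]
    exact mul_le_of_le_one_right (sq_nonneg t) hu
  · intro hx
    have e : x - c = t • A *ᵥ (t⁻¹ • A⁻¹ *ᵥ (x - c)) := by
      rw [mulVec_smul, smul_inv_smul₀ ht.ne', mulVec_mulVec, mul_nonsing_inv _ hA.isUnit,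
        one_mulVec]
    rw [e, key] at hx
    refine ⟨_, ⟨t⁻¹ • A⁻¹ *ᵥ (x - c), ?_, rfl⟩, ?_⟩
    · exact le_of_mul_le_mul_left (hx.trans (mul_one _).ge) (pow_pos ht 2)
    · simp only [AffineMap.homothety_apply, vsub_eq_sub, add_sub_cancel_left, vadd_eq_add]
      rw [← e, sub_add_cancel]

end Pool.Agent.P.MP_68beba_co
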