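import Pool.Agent.P.MP_68beba_co.Metric

/-!
The John ellipsoid of the metric polytope and its inflation factor.
-/

namespace Pool.Agent.P.MP_68beba_co

open Matrix Finset Filter Topology

/-- the cubic polynomial whose root is the centre coordinate -/
def cub (n x : ℝ) : ℝ := (2 * n ^ 2 - 2 * n + 4) * x ^ 3 - (10 * n ^ 2 - 14 * n + 8) * x ^ 2 +
  (15 * n ^ 2 - 30 * n + 16) * x - (6 * n ^ 2 - 14 * n + 8)

variable {n : ℕ}

lemma quad_K (U β γ : ℝ) (a : Pr n → ℝ) :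
    a ⬝ᵥ ((U • (1 : Matrix (Pr n) (Pr n) ℝ) + β • ((B n)ᵀ * B n) + γ • J n) *ᵥ a) =
      U * (a ⬝ᵥ a) + β * ((B n *ᵥ a) ⬝ᵥ (B n *ᵥ a)) + γ * ((∑ e, a e) * ∑ e, a e) := by
  simp only [add_mulVec, smul_mulVec, one_mulVec, dotProduct_add, dotProduct_smul, dot_G, dot_J,
    smul_eq_mul]

lemma sum_ε' {i j : Fin n} (h : i ≠ j) : ∑ e, ε i j e = 1 := by
  have := ε_dot (fun _ => 1) i j
  simpa [dotProduct, D_const, h] using this

theorem john_main (hn : 3 ≤ n) {δ : ℝ} (h1 : 1 / 2 ≤ δ) (h2 : δ ≤ 2 / 3) (hC : cub n δ = 0) :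
    ∃ M : Matrix (Pr n) (Pr n) ℝ, (∃ A c, IsJohn (MP n) A c) ∧
      (∀ A c, IsJohn (MP n) A c → Aᵀ * M * A = 1 ∧ c = fun _ => δ) ∧
      ∀ x, x ⬝ᵥ (M *ᵥ x) = (1 / (1 - δ) + (3 * n - 4) / (δ * (n - 2))) * (x ⬝ᵥ x) -
        1 / (δ * (n - 2)) * ((B n *ᵥ x) ⬝ᵥ (B n *ᵥ x)) := by
  have hx : (3 : ℝ) ≤ n := by exact_mod_cast hn
  have a1 : 0 < δ := by linarith
  have a2 : 0 < 1 - δ := by linarith
  have a3 : (0 : ℝ) < n - 2 := by linarith
  have a4 : 0 < 3 * (n : ℝ) - 4 - (2 * n - 2) * δ := by nlinarith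
  have a5 : 0 < 2 * (n : ℝ) - 2 - n * δ := by nlinarith
  obtain ⟨u', hu0⟩ : ∃ u', u' = 3 * (n : ℝ) - 4 - (2 * n - 2) * δ := ⟨_, rfl⟩
  obtain ⟨v', hv0⟩ : ∃ v', v' = 2 * (n : ℝ) - 2 - n * δ := ⟨_, rfl⟩
  rw [← hu0] at a4
  rw [← hv0] at a5
  set p := 1 / (1 - δ) with hp
  set q := 1 / (δ * (n - 2)) with hq
  have hp0 : 0 < p := by positivity
  have hq0 : 0 < q := by positivity
  set u := p + (3 * n - 4) / (δ * (n - 2)) with hu
  have hu' : u = p + q * (3 * n - 4) := by rw [hu, hq]; ring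
  set U := (n - 2) * δ * (1 - δ) / u' with hU
  set β := q * U * ((n - 2) * δ * (1 - δ) / v') with hβ
  set γ := 4 * q * β * (δ * (1 - δ)) with hγ
  set M : Matrix (Pr n) (Pr n) ℝ := u • 1 - q • ((B n)ᵀ * B n) with hM
  set K : Matrix (Pr n) (Pr n) ℝ := U • 1 + β • ((B n)ᵀ * B n) + γ • J n with hK
  have hMx : ∀ x y, x ⬝ᵥ (M *ᵥ y) = u * (x ⬝ᵥ y) - q * ((B n *ᵥ x) ⬝ᵥ (B n *ᵥ y)) := by
    intro x y
    simp only [hM, sub_mulVec, smul_mulVec, one_mulVec, dotProduct_sub, dotProduct_smul, dot_G,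
      smul_eq_mul]
  have hMT : Mᵀ = M := by simp [hM, transpose_mul]
  have hMK : M * K = 1 := by
    have e1 : u * U = 1 := by rw [hu, hU, hp]; field_simp; rw [hu0]; ring
    have e2 : u * β - q * U - q * β * (n - 2) = 0 := by
      rw [hβ, hu, hp, hq]; field_simp; rw [hv0]; ring
    have e3 : u * γ - 4 * q * β - 2 * (n - 1) * q * γ = 0 := by
      rw [hγ, hu, hp, hq]; field_simp; ring
    simp only [hM, hK, Matrix.sub_mul, Matrix.mul_add, Matrix.smul_mul, Matrix.mul_smul,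
      Matrix.one_mul, Matrix.mul_one, GG, GJ]
    match_scalars
    · linear_combination e1
    · linear_combination e2
    · linear_combination e3
  have E1 : U + 2 * β + γ = (1 - δ) ^ 2 := by
    have : U + 2 * β + γ = (1 - δ) ^ 2 + (1 - δ) * cub n δ / (u' * v') := by
      rw [hγ, hβ, hU, hq, cub]; field_simp; rw [hu0, hv0]; ring
    rw [this, hC]; simp
  have E2 : 3 * U + 4 * β + γ = δ ^ 2 := by
    have : 3 * U + 4 * β + γ = δ ^ 2 - δ * cub n δ / (u' * v') := by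
      rw [hγ, hβ, hU, hq, cub]; field_simp; rw [hu0, hv0]; ring
    rw [this, hC]; simp
  have K1 : ∀ i j, ε i j ⬝ᵥ (K *ᵥ ε i j) ≤ (1 - δ) ^ 2 := by
    intro i j
    by_cases h : i = j
    · subst h; simp [ε_self, sq_nonneg]
    · rw [hK, quad_K, ← E1, B_ε h, sum_ε' h, ε_dot, D_ε _ _ _ _ h]
      simp [h, Ne.symm h]
      linarith
  have K2 : ∀ i j k, i ≠ k → (ε i j + ε j k - ε i k) ⬝ᵥ (K *ᵥ (ε i j + ε j k - ε i k)) ≤ δ ^ 2 := by
    intro i j k hik
    by_cases hij : i = j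
    · subst hij; simp [ε_self, sq_nonneg]
    by_cases hjk : j = k
    · subst hjk; simp [ε_self, sq_nonneg]
    rw [hK, quad_K, ← E2]
    simp only [mulVec_add, mulVec_sub, B_ε hij, B_ε hjk, B_ε hik, Pi.add_apply, Pi.sub_apply,
      sum_add_distrib, sum_sub_distrib, sum_ε' hij, sum_ε' hjk, sum_ε' hik, add_dotProduct,
      sub_dotProduct, dotProduct_add, dotProduct_sub, ε_dot, D_ε _ _ _ _ hij, D_ε _ _ _ _ hjk,
      D_ε _ _ _ _ hik]
    simp [hij, hjk, hik, Ne.symm hij, Ne.symm hjk, Ne.symm hik]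
    linarith
  have D_add : ∀ (x y : Pr n → ℝ) i j, D (x + y) i j = D x i j + D y i j := fun x y i j => by
    simp only [← ε_dot, dotProduct_add]
  -- any ellipsoid with the right shape is inscribed
  have hins : ∀ Z : Matrix (Pr n) (Pr n) ℝ, Z * Zᵀ = K → ell Z (fun _ => δ) ⊆ MP n := by
    rintro Z hZ _ ⟨v, hv, rfl⟩
    refine mem_MP hn (fun i j => ?_) fun i j k hik => ?_
    · have := (abs_le.1 (dot_le hZ a2.le (K1 i j) hv)).2
      rw [ε_dot] at this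
      rw [D_add, D_const]
      split_ifs <;> linarith
    · by_cases hij : i = j
      · simp [hij, D_self]
      by_cases hjk : j = k
      · simp [hjk, D_self]
      have := (abs_le.1 (dot_le hZ a1.le (K2 i j k hik) hv)).1
      simp only [add_dotProduct, sub_dotProduct, ε_dot] at this
      simp only [D_add, D_const, if_neg hij, if_neg hjk, if_neg hik]
      linarith
  -- the duality bound
  have hdual : ∀ (A : Matrix (Pr n) (Pr n) ℝ) (c : Pr n → ℝ), A.det ≠ 0 → ell A c ⊆ MP n →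
      A.det ^ 2 * M.det ≤ 1 ∧ (1 ≤ A.det ^ 2 * M.det → Aᵀ * M * A = 1) := by
    intro A c hA hsub
    refine john_dual (κ := (Fin n × Fin n) ⊕ (Fin n × Fin n × Fin n))
      (Sum.elim (fun z => ε z.1 z.2) fun z => -(ε z.1 z.2.1 + ε z.2.1 z.2.2 - ε z.1 z.2.2))
      (Sum.elim (fun _ => p / 2) fun z => q / 2 * if z.1 = z.2.2 then 0 else 1)
      (Sum.elim (fun _ => 1 - δ) fun _ => δ)
      (Sum.elim (fun z => D (fun e => 1 - c e) z.1 z.2)
        fun z => D c z.1 z.2.1 + D c z.2.1 z.2.2 - D c z.1 z.2.2) hMT hMK ?_ ?_ ?_ ?_ hA ?_ ?_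
    · rintro (z | z)
      · exact (half_pos hp0).le
      · simp only [Sum.elim_inr]; positivity
    · rintro (z | z) <;> assumption
    · intro x y
      have e1 := sum_DD x y
      have e2 := tri_sum x y
      simp only [Fintype.sum_sum_type, Fintype.sum_prod_type, Sum.elim_inl, Sum.elim_inr,
        neg_dotProduct, add_dotProduct, sub_dotProduct, ε_dot, neg_mul_neg, mul_assoc (q / 2),
        ← mul_sum, e1, e2, hMx, hu']
      ring
    · rintro (z | z) hz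
      · exact K1 _ _
      · simp only [Sum.elim_inr, mulVec_neg, neg_dotProduct, dotProduct_neg, neg_neg]
        exact K2 _ _ _ fun h => hz (by simp [h])
    · rintro (z | z) v hv
      · have := (hsub ⟨v, hv, rfl⟩).1
        simp only [Sum.elim_inl, ε_dot, D]
        split_ifs with h
        · exact le_rfl
        · have := (this ⟨_, h⟩).2
          rw [Pi.add_apply] at this
          linarith
      · have := (MP_D (hsub ⟨v, hv, rfl⟩)).2 z.1 z.2.1 z.2.2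
        simp only [D_add] at this
        simp only [Sum.elim_inr, neg_dotProduct, add_dotProduct, sub_dotProduct, ε_dot]
        linarith
    · have e1 := sum_D fun e => 1 - c e
      have e2 := tri_lin c
      have e3 : ∀ s t : ℝ, q / 2 * s * (δ * t) = q / 2 * δ * (s * t) := fun s t => by ring
      simp only [Fintype.sum_sum_type, Fintype.sum_prod_type, Sum.elim_inl, Sum.elim_inr, e3,
        ← mul_sum, e1, e2, sum_sub_distrib, sum_const, card_univ, nsmul_eq_mul, mul_one]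
      apply le_of_eq
      rw [hp, hq]
      field_simp
      ring
  obtain ⟨-, Z, -, -, -, -, hZ, hZK, -⟩ := exists_Z hMT hMK (fun x => by
    have e2 := tri_sum x x
    have e3 : 0 ≤ x ⬝ᵥ x := by rw [← sum_sq_eq]; positivity
    have e4 : 0 ≤ 2 * ((3 * n - 4) * (x ⬝ᵥ x) - (B n *ᵥ x) ⬝ᵥ (B n *ᵥ x)) := by
      rw [← e2]
      refine sum_nonneg fun i _ => sum_nonneg fun j _ => sum_nonneg fun k _ =>
        mul_nonneg (by split_ifs <;> norm_num) (mul_self_nonneg _)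
    rw [hMx, hu']
    nlinarith [mul_nonneg hp0.le e3, mul_nonneg hq0.le e4]) (A := 1) (by simp)
  have hZd : Z.det ^ 2 * M.det = 1 := by
    have := congrArg det hZ
    simp only [det_mul, det_transpose, det_one] at this
    linear_combination this
  have hZ0 : Z.det ≠ 0 := by rintro h; simp [h] at hZd
  have hMd : 0 < M.det := by
    by_contra h
    nlinarith [mul_nonneg (sq_nonneg Z.det) (neg_nonneg.2 (not_lt.1 h))]
  refine ⟨M, ⟨Z, _, hZ0, hins Z hZK, fun A' c' hA' hsub => ?_⟩, fun A c hJ => ?_,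
    fun x => hMx x x⟩
  · rw [volume_le_iff]
    exact le_of_mul_le_mul_right ((hdual A' c' hA' hsub).1.trans hZd.ge) hMd
  · have e1 := (volume_le_iff _ _ _ _).1 (hJ.2.2 Z _ hZ0 (hins Z hZK))
    have e2 := (hdual A c hJ.1 hJ.2.1).2 (hZd.ge.trans (mul_le_mul_of_nonneg_right e1 hMd.le))
    refine ⟨e2, ?_⟩
    have hAK : A * Aᵀ = K := by
      have e3 := mul_eq_one_comm.1 e2
      rw [← Matrix.mul_one (A * Aᵀ), ← hMK, ← Matrix.mul_assoc, Matrix.mul_assoc A, e3,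
        Matrix.one_mul]
    have key : ∀ (a : Pr n → ℝ) (ρ : ℝ), 0 < ρ → a ⬝ᵥ (K *ᵥ a) = ρ ^ 2 →
        ∃ v, ∑ e, v e ^ 2 ≤ 1 ∧ a ⬝ᵥ (A *ᵥ v) = ρ := by
      intro a ρ hρ ha
      have e4 : (Aᵀ *ᵥ a) ⬝ᵥ (Aᵀ *ᵥ a) = ρ ^ 2 := by
        rw [mulVec_dot, transpose_transpose, hAK, ha]
      refine ⟨ρ⁻¹ • (Aᵀ *ᵥ a), ?_, ?_⟩
      · rw [sum_sq_eq, smul_dotProduct, dotProduct_smul, e4, smul_eq_mul, smul_eq_mul]
        apply le_of_eq
        field_simp
      · rw [mulVec_smul, dotProduct_smul, mulVec_mulVec, hAK, ha, smul_eq_mul]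
        field_simp
    have b1 : ∀ i j, i ≠ j → D c i j ≤ δ := by
      intro i j h
      obtain ⟨v, hv, hv'⟩ := key (ε i j) _ a2 (by
        rw [hK, quad_K, ← E1, B_ε h, sum_ε' h, ε_dot, D_ε _ _ _ _ h]
        simp [h, Ne.symm h]
        ring)
      have := ((MP_D (hJ.2.1 ⟨v, hv, rfl⟩)).1 i j).2
      rw [D_add, ← ε_dot (A *ᵥ v), hv'] at this
      linarith
    have b2 : ∀ i j k, i ≠ j → j ≠ k → i ≠ k → δ ≤ D c i j + D c j k - D c i k := by
      intro i j k hij hjk hik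
      obtain ⟨v, hv, hv'⟩ := key (-(ε i j + ε j k - ε i k)) _ a1 (by
        rw [mulVec_neg, neg_dotProduct, dotProduct_neg, neg_neg, hK, quad_K, ← E2]
        simp only [mulVec_add, mulVec_sub, B_ε hij, B_ε hjk, B_ε hik, Pi.add_apply, Pi.sub_apply,
          sum_add_distrib, sum_sub_distrib, sum_ε' hij, sum_ε' hjk, sum_ε' hik, add_dotProduct,
          sub_dotProduct, dotProduct_add, dotProduct_sub, ε_dot, D_ε _ _ _ _ hij, D_ε _ _ _ _ hjk,
          D_ε _ _ _ _ hik]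
        simp [hij, hjk, hik, Ne.symm hij, Ne.symm hjk, Ne.symm hik]
        ring)
      have := (MP_D (hJ.2.1 ⟨v, hv, rfl⟩)).2 i j k
      simp only [D_add] at this
      simp only [neg_dotProduct, add_dotProduct, sub_dotProduct, ε_dot] at hv'
      linarith
    ext ⟨e, he⟩
    induction e using Sym2.ind with
    | h i j =>
      have hij : i ≠ j := by simpa using he
      rw [← D_ne c]
      obtain ⟨k, -, hk⟩ := exists_mem_notMem_of_card_lt_card (s := {i, j}) (t := univ)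
        (lt_of_le_of_lt card_le_two (by rw [card_univ, Fintype.card_fin]; omega))
      simp only [mem_insert, mem_singleton, not_or] at hk
      have c1 := b2 i j k hij (Ne.symm hk.2) (Ne.symm hk.1)
      have c2 := b2 j i k hij.symm (Ne.symm hk.1) (Ne.symm hk.2)
      rw [D_symm c j i] at c2
      linarith [b1 i j hij]

/-- the square of the inflation factor -/
noncomputable def rsq (n : ℕ) (δ : ℝ) : ℝ :=
  (n.choose 2 : ℝ) * (δ / (1 - δ)) + ((n ^ 2 / 4 : ℕ) : ℝ) * (2 / δ - 1 / (1 - δ))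

theorem infl (hn : 3 ≤ n) {δ : ℝ} (h1 : 1 / 2 ≤ δ) (h2 : δ ≤ 2 / 3) (hC : cub n δ = 0) :
    (∃ A c, IsJohn (MP n) A c) ∧ ∀ A c, IsJohn (MP n) A c →
      IsLeast {t | 0 < t ∧ MP n ⊆ AffineMap.homothety c t '' ell A c} √(rsq n δ) := by
  obtain ⟨M, hex, hun, hM⟩ := john_main hn h1 h2 hC
  refine ⟨hex, fun A c hJ => ?_⟩
  obtain ⟨hA, rfl⟩ := hun A c hJ
  have hx : (3 : ℝ) ≤ n := by exact_mod_cast hn
  have a1 : 0 < δ := by linarith
  have a2 : 0 < 1 - δ := by linarith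
  have a3 : (0 : ℝ) < n - 2 := by linarith
  set p := 1 / (1 - δ) with hp
  set q := 1 / (δ * (n - 2)) with hq
  have hF : ∀ d : Pr n → ℝ, (d - fun _ => δ) ⬝ᵥ (M *ᵥ (d - fun _ => δ)) =
      (n.choose 2 : ℝ) * (δ / (1 - δ)) + ((p + q * (3 * n - 4)) * (d ⬝ᵥ d) - 2 * p * ∑ e, d e -
        q * ((B n *ᵥ d) ⬝ᵥ (B n *ᵥ d))) := by
    intro d
    have e1 : B n *ᵥ (fun _ => δ) = fun _ => (n - 1) * δ := by
      ext i; simp only [mulVec, dotProduct, ← sum_mul, B_row]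
    have e2 : ∑ i, (B n *ᵥ d) i = 2 * ∑ e, d e := by simp only [B_mulVec, sum_D]
    rw [hM, mulVec_sub, e1, Nat.cast_choose_two]
    simp only [sub_dotProduct, dotProduct_sub]
    generalize d ⬝ᵥ d = X
    generalize (B n *ᵥ d) ⬝ᵥ (B n *ᵥ d) = S
    simp only [dotProduct, ← sum_mul, ← mul_sum, e2, sum_const, card_univ, nsmul_eq_mul, card_Pr,
      Fintype.card_fin, hp, hq]
    field_simp
    ring
  have hc : 2 / δ - 1 / (1 - δ) = 2 * q * (n - 2) - p := by rw [hp, hq]; field_simp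
  have hc0 : 0 ≤ 2 * q * (n - 2) - p := by
    rw [← hc, sub_nonneg, div_le_div_iff₀ a2 a1]; linarith
  have hc1 : q * (n - 2) ≤ p := by
    have : q * (n - 2) = 1 / δ := by rw [hq]; field_simp
    rw [this, hp]
    exact one_div_le_one_div_of_le a2 (by linarith)
  have hq0 : 0 < q := by positivity
  have hr : 0 < rsq n δ := by
    rw [rsq, hc]
    have : (0 : ℝ) < n.choose 2 := by exact_mod_cast Nat.choose_pos (by omega)
    positivity
  refine ⟨⟨Real.sqrt_pos.2 hr, fun d hd => ?_⟩, fun t ⟨ht, hsub⟩ => ?_⟩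
  · rw [mem_homothety hJ.1 hA _ _ (Real.sqrt_pos.2 hr), Real.sq_sqrt hr.le, hF, rsq, hc]
    obtain ⟨i1, i2, i3⟩ := MP_ineq hd
    generalize d ⬝ᵥ d = X at *
    generalize (B n *ᵥ d) ⬝ᵥ (B n *ᵥ d) = S at *
    generalize ∑ e, d e = Y at *
    have hk : 4 * ((n ^ 2 / 4 : ℕ) : ℝ) = n ^ 2 - ((n % 2 : ℕ) : ℝ) := by
      have : 4 * (n ^ 2 / 4) + n % 2 = n ^ 2 := by
        obtain ⟨m, rfl | rfl⟩ := Nat.even_or_odd' n
        · rw [show (2 * m) ^ 2 = 4 * (m * m) by ring]; omega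
        · rw [show (2 * m + 1) ^ 2 = 4 * (m * m + m) + 1 by ring]; omega
      rw [eq_sub_iff_add_eq]
      exact_mod_cast this
    have he : ((n % 2 : ℕ) : ℝ) ≤ 1 := by exact_mod_cast Nat.lt_succ_iff.1 (Nat.mod_lt n two_pos)
    generalize ((n ^ 2 / 4 : ℕ) : ℝ) = k at *
    generalize ((n % 2 : ℕ) : ℝ) = e at *
    set c := 2 * q * (n - 2) - p with hcc
    refine add_le_add le_rfl (le_of_mul_le_mul_left ?_ (by linarith : (0 : ℝ) < 4 * n))
    have j1 := mul_nonneg hc0 i3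
    have j2 := mul_nonneg (by nlinarith : 0 ≤ q * n - c) (sub_nonneg.2 i2)
    have j3 := mul_nonneg (by nlinarith : 0 ≤ n * (p + q * (n - 4)) + 2 * c * (n - e))
      (sub_nonneg.2 i1)
    have j4 : p = 2 * q * (n - 2) - c := by rw [hcc]; ring
    have j5 : k = (n ^ 2 - e) / 4 := by linarith
    rw [j5]
    rw [j4] at j3 ⊢
    linarith
  · obtain ⟨d, hd, i1, i2, i3⟩ := exists_cut n
    have := (mem_homothety hJ.1 hA _ _ ht).1 (hsub hd)
    rw [hF, i1, i2, i3] at this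
    refine Real.sqrt_le_iff.2 ⟨ht.le, le_trans (le_of_eq ?_) this⟩
    rw [rsq, hc]
    ring

lemma exists_root {x : ℝ} (hx : 3 ≤ x) : ∃ δ ∈ Set.Ioo (1 / 2 : ℝ) (2 / 3), cub x δ = 0 := by
  refine intermediate_value_Ioo (by norm_num) (f := cub x)
    (Continuous.continuousOn (by unfold cub; fun_prop)) ⟨?_, ?_⟩ <;> unfold cub <;> nlinarith

lemma root_unique {x a b : ℝ} (hx : 3 ≤ x) (ha : a ∈ Set.Ioo (0 : ℝ) 1) (hb : b ∈ Set.Ioo (0 : ℝ) 1)
    (h1 : cub x a = 0) (h2 : cub x b = 0) : a = b := by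
  have key : ∀ y ∈ Set.Ioo (0 : ℝ) 1, cub x y = 0 →
      y + (x - 1) * (x - 2) * (y / (2 * x - 2 - x * y)) + x * (x - 3) / 2 * (x - 2) *
        (y / (3 * x - 4 - (2 * x - 2) * y)) = x * (x - 1) / 2 * (1 - y) := by
    rintro y ⟨y0, y1⟩ hy
    have a4 : 0 < 3 * x - 4 - (2 * x - 2) * y := by nlinarith
    have a5 : 0 < 2 * x - 2 - x * y := by nlinarith
    unfold cub at hy
    obtain ⟨u', hu0⟩ : ∃ u', u' = 3 * x - 4 - (2 * x - 2) * y := ⟨_, rfl⟩
    obtain ⟨v', hv0⟩ : ∃ v', v' = 2 * x - 2 - x * y := ⟨_, rfl⟩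
    rw [← hu0] at a4 ⊢
    rw [← hv0] at a5 ⊢
    field_simp
    rw [hu0, hv0]
    linear_combination x * (x - 1) * hy
  have mono : ∀ a ∈ Set.Ioo (0 : ℝ) 1, ∀ b ∈ Set.Ioo (0 : ℝ) 1, cub x a = 0 → cub x b = 0 →
      ¬ a < b := by
    intro a ha b hb h1 h2 hab
    have e1 := key a ha h1
    have e2 := key b hb h2
    obtain ⟨a0, a1⟩ := ha
    obtain ⟨b0, b1⟩ := hb
    have c1 : a / (2 * x - 2 - x * a) ≤ b / (2 * x - 2 - x * b) :=
      div_le_div₀ b0.le hab.le (by nlinarith) (by nlinarith)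
    have c2 : a / (3 * x - 4 - (2 * x - 2) * a) ≤ b / (3 * x - 4 - (2 * x - 2) * b) :=
      div_le_div₀ b0.le hab.le (by nlinarith) (by nlinarith)
    have c3 := mul_le_mul_of_nonneg_left c1 (by nlinarith : 0 ≤ (x - 1) * (x - 2))
    have c4 := mul_le_mul_of_nonneg_left c2
      (mul_nonneg (by nlinarith) (by linarith) : 0 ≤ x * (x - 3) / 2 * (x - 2))
    have c5 := mul_le_mul_of_nonneg_left hab.le (by nlinarith : 0 ≤ x * (x - 1) / 2)
    linarith
  exact le_antisymm (not_lt.1 (mono b hb a ha h2 h1)) (not_lt.1 (mono a ha b hb h1 h2))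

lemma tendsto_root (δ : ℕ → ℝ)
    (h : ∀ n, 3 ≤ n → δ n ∈ Set.Ioo (1 / 2 : ℝ) (2 / 3) ∧ cub n (δ n) = 0) :
    Tendsto δ atTop (𝓝 ((3 - √3) / 2)) := by
  rw [tendsto_iff_norm_sub_tendsto_zero]
  refine squeeze_zero' (Eventually.of_forall fun _ => norm_nonneg _) ?_
    (tendsto_const_div_atTop_nhds_zero_nat (100 : ℝ))
  filter_upwards [eventually_ge_atTop 3] with n hn
  obtain ⟨⟨h1, h2⟩, h3⟩ := h n hn
  have hx : (3 : ℝ) ≤ n := by exact_mod_cast hn
  have s3 : √3 ^ 2 = 3 := Real.sq_sqrt (by norm_num)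
  have s0 : 0 ≤ √3 := Real.sqrt_nonneg 3
  generalize δ n = y at *
  generalize (n : ℝ) = x at *
  have e : x * (x * (y - (3 - √3) / 2)) * ((2 - y) * (3 + √3 - 2 * y)) =
      x * (2 * y ^ 3 - 14 * y ^ 2 + 30 * y - 14) + (-4 * y ^ 3 + 8 * y ^ 2 - 16 * y + 8) := by
    unfold cub at h3
    linear_combination h3 + x ^ 2 * (2 - y) / 2 * s3
  have b1 : 1 ≤ (2 - y) * (3 + √3 - 2 * y) := by nlinarith
  have y2 : 0 ≤ y ^ 2 ∧ y ^ 2 ≤ 1 := ⟨by positivity, by nlinarith⟩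
  have y3 : 0 ≤ y ^ 3 ∧ y ^ 3 ≤ 1 := ⟨by positivity, pow_le_one₀ (by linarith) (by linarith)⟩
  have b2 : |2 * y ^ 3 - 14 * y ^ 2 + 30 * y - 14| ≤ 50 := abs_le.2 ⟨by linarith, by linarith⟩
  have b3 : |-4 * y ^ 3 + 8 * y ^ 2 - 16 * y + 8| ≤ 50 := abs_le.2 ⟨by linarith, by linarith⟩
  have b4 := congrArg abs e
  have b5 := abs_add_le (x * (2 * y ^ 3 - 14 * y ^ 2 + 30 * y - 14))
    (-4 * y ^ 3 + 8 * y ^ 2 - 16 * y + 8)
  rw [← b4, abs_mul, abs_mul, abs_mul, abs_mul x, abs_of_pos (by linarith : 0 < x),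
    abs_of_pos (by linarith : 0 < (2 - y) * (3 + √3 - 2 * y))] at b5
  rw [Real.norm_eq_abs, le_div_iff₀ (by linarith)]
  have b6 := abs_nonneg (y - (3 - √3) / 2)
  generalize |y - (3 - √3) / 2| = z at *
  have b7 : x * (x * z) ≤ x * 100 := by
    nlinarith [mul_nonneg (mul_nonneg (by linarith : 0 ≤ x) (mul_nonneg (by linarith : 0 ≤ x) b6))
      (sub_nonneg.2 b1)]
  nlinarith

theorem tendsto_r (δ : ℕ → ℝ)
    (h : ∀ n, 3 ≤ n → δ n ∈ Set.Ioo (1 / 2 : ℝ) (2 / 3) ∧ cub n (δ n) = 0) :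
    Tendsto (fun n : ℕ => √(rsq n (δ n)) / n) atTop
      (𝓝 ((3 : ℝ) ^ (3 / 4 : ℝ) * √(5 + √3) / 6)) := by
  have s3 : √3 ^ 2 = 3 := Real.sq_sqrt (by norm_num)
  have s1 : 1 < √3 := Real.lt_sqrt_of_sq_lt (by norm_num)
  have s2 : √3 < 3 := (Real.sqrt_lt' (by norm_num)).2 (by norm_num)
  have h0 := tendsto_root δ h
  have h1 : Tendsto (fun n : ℕ => (n.choose 2 : ℝ) / n ^ 2) atTop (𝓝 (1 / 2)) := by
    have := (tendsto_const_div_atTop_nhds_zero_nat (1 / 2 : ℝ)).const_sub (1 / 2)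
    rw [sub_zero] at this
    refine this.congr' ?_
    filter_upwards [eventually_gt_atTop 0] with n hn
    have : (n : ℝ) ≠ 0 := by positivity
    rw [Nat.cast_choose_two]
    field_simp
  have h2 : Tendsto (fun n : ℕ => ((n ^ 2 / 4 : ℕ) : ℝ) / n ^ 2) atTop (𝓝 (1 / 4)) := by
    have := (tendsto_const_div_atTop_nhds_zero_nat (1 : ℝ)).const_sub (1 / 4)
    rw [sub_zero] at this
    refine tendsto_of_tendsto_of_tendsto_of_le_of_le' this tendsto_const_nhds ?_ ?_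
    · filter_upwards [eventually_ge_atTop 1] with n hn
      have a1 : (1 : ℝ) ≤ n := by exact_mod_cast hn
      have a2 : (n : ℝ) ^ 2 ≤ 4 * ((n ^ 2 / 4 : ℕ) : ℝ) + 4 := by
        exact_mod_cast (by omega : n ^ 2 ≤ 4 * (n ^ 2 / 4) + 4)
      rw [le_div_iff₀ (by positivity)]
      have : (1 / 4 - 1 / (n : ℝ)) * n ^ 2 = n ^ 2 / 4 - n := by field_simp
      linarith
    · filter_upwards [eventually_ge_atTop 1] with n hn
      have a2 : 4 * ((n ^ 2 / 4 : ℕ) : ℝ) ≤ (n : ℝ) ^ 2 := by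
        exact_mod_cast (by omega : 4 * (n ^ 2 / 4) ≤ n ^ 2)
      rw [div_le_iff₀ (by positivity)]
      linarith
  have n1 : 1 - (3 - √3) / 2 ≠ 0 := by linarith
  have n2 : (3 - √3) / 2 ≠ 0 := by linarith
  have h3 := ((h1.mul (h0.div (h0.const_sub 1) n1)).add (h2.mul
    (((tendsto_const_nhds (x := (2 : ℝ))).div h0 n2).sub
      ((tendsto_const_nhds (x := (1 : ℝ))).div (h0.const_sub 1) n1)))).sqrt
  convert h3 using 2 with n
  · rw [← Real.sqrt_sq (Nat.cast_nonneg n), ← Real.sqrt_div' _ (by positivity),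
      Real.sqrt_sq (Nat.cast_nonneg n), rsq]
    simp only [Pi.div_apply]
    congr 1
    ring
  · symm
    rw [Real.sqrt_eq_iff_eq_sq (by
      have : 0 < 1 - (3 - √3) / 2 := by linarith
      have : 0 < (3 - √3) / 2 := by linarith
      have : 0 ≤ 2 / ((3 - √3) / 2) - 1 / (1 - (3 - √3) / 2) := by
        rw [sub_nonneg, div_le_div_iff₀ (by linarith) (by linarith)]; nlinarith
      positivity) (by positivity), div_pow, mul_pow, Real.sq_sqrt (by positivity),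
      ← Real.rpow_natCast, ← Real.rpow_mul (by norm_num),
      show (3 / 4 : ℝ) * ((2 : ℕ) : ℝ) = 1 + 1 / 2 by norm_num, Real.rpow_add (by norm_num),
      Real.rpow_one, ← Real.sqrt_eq_rpow]
    have n3 : -1 + √3 ≠ 0 := by linarith
    have n4 : 3 - √3 ≠ 0 := by linarith
    have e1 : 1 - (3 - √3) / 2 = (-1 + √3) / 2 := by ring
    rw [e1]
    field_simp
    linear_combination (24 * √3 ^ 2 + 24 * √3 - 192) * s3

end Pool.Agent.P.MP_68beba_co
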