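import Pool.Agent.P.MP_68beba_co.John

/-!
The metric polytope and the combinatorial identities.
-/

namespace Pool.Agent.P.MP_68beba_co

open Matrix Finset

/-- unordered pairs of distinct points -/
abbrev Pr (n : ℕ) := {e : Sym2 (Fin n) // ¬ e.IsDiag}

/-- the metric polytope -/
def MP (n : ℕ) : Set (Pr n → ℝ) :=
  {d | (∀ e, 0 ≤ d e ∧ d e ≤ 1) ∧ ∀ (i j k : Fin n) (hij : ¬ s(i, j).IsDiag)
    (hjk : ¬ s(j, k).IsDiag) (hik : ¬ s(i, k).IsDiag),
      0 ≤ d ⟨s(i, j), hij⟩ + d ⟨s(j, k), hjk⟩ - d ⟨s(i, k), hik⟩}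

variable {n : ℕ}

/-- symmetric matrix of a vector -/
def D (x : Pr n → ℝ) (i j : Fin n) : ℝ := if h : s(i, j).IsDiag then 0 else x ⟨s(i, j), h⟩

lemma D_self (x : Pr n → ℝ) (i : Fin n) : D x i i = 0 := by simp [D]

lemma D_symm (x : Pr n → ℝ) (i j : Fin n) : D x i j = D x j i := by
  simp only [D, Sym2.eq_swap (a := i)]

lemma D_ne (x : Pr n → ℝ) {i j : Fin n} (h : ¬ s(i, j).IsDiag) : D x i j = x ⟨s(i, j), h⟩ :=
  dif_neg h

lemma D_mul (x y : Pr n → ℝ) (i j : Fin n) : D x i j * D y i j = D (fun e => x e * y e) i j := by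
  unfold D; split_ifs <;> simp

lemma D_const (c : ℝ) (i j : Fin n) : D (fun _ => c) i j = if i = j then 0 else c := by
  simp [D]

/-- indicator of a pair -/
def ε (i j : Fin n) : Pr n → ℝ := fun e => if e.1 = s(i, j) then 1 else 0

lemma ε_dot (x : Pr n → ℝ) (i j : Fin n) : ε i j ⬝ᵥ x = D x i j := by
  unfold D dotProduct
  split_ifs with h
  · exact sum_eq_zero fun e _ => by rw [ε, if_neg fun h' => e.2 (by rw [h']; exact h), zero_mul]
  · rw [sum_eq_single ⟨_, h⟩]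
    · simp [ε]
    · intro e _ he
      rw [ε, if_neg fun h' => he (Subtype.ext h'), zero_mul]
    · simp

lemma sum_ε (e : Pr n) : ∑ i, ∑ j, ε i j e = 2 := by
  obtain ⟨e, he⟩ := e
  induction e using Sym2.ind with
  | h a b =>
    have hab : a ≠ b := by simpa using he
    have : ∀ i j, ε i j ⟨s(a, b), he⟩ = (if a = i then if b = j then 1 else 0 else 0) +
        (if b = i then if a = j then 1 else 0 else 0) := by
      intro i j
      simp only [ε, Sym2.eq_iff]
      by_cases h1 : a = i <;> by_cases h2 : b = j <;> by_cases h3 : b = i <;>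
        by_cases h4 : a = j <;> simp_all
    simp [this, sum_add_distrib]
    norm_num

lemma sum_D (x : Pr n → ℝ) : ∑ i, ∑ j, D x i j = 2 * ∑ e, x e := by
  simp only [← ε_dot, dotProduct]
  rw [mul_sum, sum_congr rfl fun i _ => sum_comm, sum_comm]
  exact sum_congr rfl fun e _ => by simp only [← sum_mul, sum_ε]

lemma sum_DD (x y : Pr n → ℝ) : ∑ i, ∑ j, D x i j * D y i j = 2 * (x ⬝ᵥ y) := by
  simp only [D_mul, sum_D, dotProduct]

lemma card_Pr : (Fintype.card (Pr n) : ℝ) = n * (n - 1) / 2 := by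
  rw [Sym2.card_subtype_not_diag, Fintype.card_fin, Nat.cast_choose_two]

lemma D_ε (i j k l : Fin n) (hij : i ≠ j) : D (ε i j) k l =
    (if k = i then if l = j then 1 else 0 else 0) + (if k = j then if l = i then 1 else 0 else 0) := by
  simp only [D, ε, Sym2.eq_iff, Sym2.mk_isDiag_iff]
  by_cases h1 : k = i <;> by_cases h2 : l = j <;> by_cases h3 : k = j <;>
    by_cases h4 : l = i <;> simp_all

lemma ε_self (i : Fin n) : ε i i = 0 := by
  ext e
  exact if_neg fun h => e.2 (by rw [h]; simp)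

/-- incidence matrix -/
def B (n : ℕ) : Matrix (Fin n) (Pr n) ℝ := Matrix.of fun i e => ∑ j, ε i j e

lemma B_mulVec (x : Pr n → ℝ) (i : Fin n) : (B n *ᵥ x) i = ∑ j, D x i j := by
  simp only [mulVec, dotProduct, B, of_apply, sum_mul, ← ε_dot]
  exact sum_comm

lemma B_ε {i j : Fin n} (hij : i ≠ j) : B n *ᵥ ε i j = Pi.single i 1 + Pi.single j 1 := by
  ext k
  simp [B_mulVec, D_ε _ _ _ _ hij, sum_add_distrib, Pi.single_apply]

lemma B_col (e : Pr n) : ∑ i, B n i e = 2 := sum_ε e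

lemma B_row (i : Fin n) : ∑ e, B n i e = n - 1 := by
  have := B_mulVec (fun _ => 1) i
  simp only [mulVec, dotProduct, mul_one, D_const] at this
  rw [this, sum_ite, filter_ne, sum_const, sum_const, card_erase_of_mem (mem_univ _)]
  simp [Nat.cast_pred (Fin.pos i)]

lemma B_BT : B n * (B n)ᵀ = ((n : ℝ) - 2) • 1 + Matrix.of fun _ _ => 1 := by
  ext i k
  have h1 : (B n * (B n)ᵀ) i k = ∑ j, (B n *ᵥ ε i j) k := by
    simp only [mul_apply, transpose_apply, mulVec, dotProduct]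
    rw [sum_comm]
    exact sum_congr rfl fun e _ => by rw [← mul_sum, mul_comm]; rfl
  have h2 : ∀ j, (B n *ᵥ ε i j) k = (if k = i then 1 else 0) + (if k = j then 1 else 0) -
      (if i = j then if k = i then 2 else 0 else 0) := by
    intro j
    by_cases hij : i = j
    · subst hij
      rw [ε_self, mulVec_zero]
      by_cases hk : k = i <;> simp [hk]
      norm_num
    · simp [B_ε hij, Pi.single_apply, hij]
  rw [h1]
  simp only [h2, sum_add_distrib, sum_sub_distrib]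
  by_cases hk : k = i
  · simp [hk]; ring
  · simp [hk, Ne.symm hk]

/-- all ones matrix -/
def J (n : ℕ) : Matrix (Pr n) (Pr n) ℝ := Matrix.of fun _ _ => 1

lemma GG : (B n)ᵀ * B n * ((B n)ᵀ * B n) = ((n : ℝ) - 2) • ((B n)ᵀ * B n) + (4 : ℝ) • J n := by
  rw [Matrix.mul_assoc, ← Matrix.mul_assoc (B n), B_BT, Matrix.add_mul, Matrix.mul_add,
    Matrix.smul_mul, Matrix.one_mul, Matrix.mul_smul]
  congr 1
  ext e f
  simp [mul_apply, B_col, ← sum_mul, J]
  norm_num

lemma GJ : (B n)ᵀ * B n * J n = (2 * ((n : ℝ) - 1)) • J n := by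
  rw [Matrix.mul_assoc]
  ext e f
  simp [mul_apply, B_col, B_row, ← sum_mul, J]

lemma dot_G (x y : Pr n → ℝ) : x ⬝ᵥ (((B n)ᵀ * B n) *ᵥ y) = (B n *ᵥ x) ⬝ᵥ (B n *ᵥ y) := by
  rw [← mulVec_mulVec, dotProduct_mulVec x, vecMul_transpose]

lemma dot_J (x y : Pr n → ℝ) : x ⬝ᵥ (J n *ᵥ y) = (∑ e, x e) * ∑ e, y e := by
  simp [dotProduct, mulVec, J, sum_mul]

lemma sw23 (φ : Fin n → Fin n → Fin n → ℝ) :
    ∑ i, ∑ j, ∑ k, φ i j k = ∑ i, ∑ k, ∑ j, φ i j k := sum_congr rfl fun _ _ => sum_comm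

lemma tri_sum (x y : Pr n → ℝ) : ∑ i, ∑ j, ∑ k, (if i = k then 0 else 1) *
    ((D x i j + D x j k - D x i k) * (D y i j + D y j k - D y i k)) =
    2 * ((3 * n - 4) * (x ⬝ᵥ y) - (B n *ᵥ x) ⬝ᵥ (B n *ᵥ y)) := by
  set S := (B n *ᵥ x) ⬝ᵥ (B n *ᵥ y) with hS
  have h0 := sum_DD x y
  have s1 : ∑ i, ∑ j, ∑ k, D x i j * D y i k = S := by
    simp only [hS, dotProduct, B_mulVec, sum_mul_sum]
  have s2 : ∑ i, ∑ j, ∑ k, D x i k * D y i j = S := by rw [sw23, s1]
  have s3 : ∑ i, ∑ j, ∑ k, D x i j * D y j k = S := by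
    rw [sum_comm, ← s1]; simp only [D_symm x]
  have s4 : ∑ i, ∑ j, ∑ k, D x j k * D y i j = S := by
    rw [sum_comm, ← s2]; simp only [D_symm y]
  have s5 : ∑ i, ∑ j, ∑ k, D x j k * D y i k = S := by
    rw [sw23, ← s4]; simp only [D_symm x]
  have s6 : ∑ i, ∑ j, ∑ k, D x i k * D y j k = S := by
    rw [sw23, ← s3]; simp only [D_symm y]
  have p1 : ∑ i, ∑ j, ∑ _k : Fin n, D x i j * D y i j = n * (2 * (x ⬝ᵥ y)) := by
    simp [← h0, mul_sum]
  have p2 : ∑ _i : Fin n, ∑ j, ∑ k, D x j k * D y j k = n * (2 * (x ⬝ᵥ y)) := by simp [h0]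
  have p3 : ∑ i, ∑ _j : Fin n, ∑ k, D x i k * D y i k = n * (2 * (x ⬝ᵥ y)) := by
    rw [sw23, p1]
  have p4 : ∑ i, ∑ j, ∑ k, (if i = k then 4 * (D x i j * D y i j) else 0) =
      4 * (2 * (x ⬝ᵥ y)) := by simp [← h0, mul_sum]
  have e : ∀ i j k, (if i = k then 0 else 1) *
      ((D x i j + D x j k - D x i k) * (D y i j + D y j k - D y i k)) =
      D x i j * D y i j + D x j k * D y j k + D x i k * D y i k + D x i j * D y j k +
        D x j k * D y i j - D x i j * D y i k - D x i k * D y i j - D x j k * D y i k -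
        D x i k * D y j k - (if i = k then 4 * (D x i j * D y i j) else 0) := by
    intro i j k
    split_ifs with h
    · subst h; simp only [D_self, D_symm _ j i]; ring
    · ring
  simp only [e, sum_add_distrib, sum_sub_distrib, s1, s2, s3, s4, s5, s6, p1, p2, p3, p4]
  ring

lemma tri_lin (x : Pr n → ℝ) : ∑ i, ∑ j, ∑ k, (if i = k then 0 else 1) *
    (D x i j + D x j k - D x i k) = 2 * (n - 2) * ∑ e, x e := by
  have h0 := sum_D x
  have p1 : ∑ i, ∑ j, ∑ _k : Fin n, D x i j = n * (2 * ∑ e, x e) := by simp [← h0, mul_sum]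
  have p2 : ∑ _i : Fin n, ∑ j, ∑ k, D x j k = n * (2 * ∑ e, x e) := by simp [h0]
  have p3 : ∑ i, ∑ _j : Fin n, ∑ k, D x i k = n * (2 * ∑ e, x e) := by rw [sw23, p1]
  have p4 : ∑ i, ∑ j, ∑ k, (if i = k then 2 * D x i j else 0) = 2 * (2 * ∑ e, x e) := by
    simp [← h0, mul_sum]
  have e : ∀ i j k, (if i = k then 0 else 1) * (D x i j + D x j k - D x i k) =
      D x i j + D x j k - D x i k - (if i = k then 2 * D x i j else 0) := by
    intro i j k
    split_ifs with h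
    · subst h; simp only [D_self, D_symm _ j i]; ring
    · ring
  simp only [e, sum_add_distrib, sum_sub_distrib, p1, p2, p3, p4]
  ring

lemma MP_D {d : Pr n → ℝ} (hd : d ∈ MP n) :
    (∀ i j, 0 ≤ D d i j ∧ D d i j ≤ 1) ∧ ∀ i j k, D d i k ≤ D d i j + D d j k := by
  have h1 : ∀ i j, 0 ≤ D d i j ∧ D d i j ≤ 1 := by
    intro i j
    unfold D
    split_ifs
    · simp
    · exact hd.1 _
  refine ⟨h1, fun i j k => ?_⟩
  by_cases hij : i = j
  · simp [hij, D_self]
  by_cases hjk : j = k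
  · simp [hjk, D_self]
  by_cases hik : i = k
  · rw [hik, D_self]; linarith [(h1 k j).1, (h1 j k).1]
  have := hd.2 i j k (by simpa) (by simpa) (by simpa)
  rw [← D_ne d, ← D_ne d, ← D_ne d] at this
  linarith

lemma mem_MP (hn : 3 ≤ n) {d : Pr n → ℝ} (h1 : ∀ i j, D d i j ≤ 1)
    (h2 : ∀ i j k, i ≠ k → D d i k ≤ D d i j + D d j k) : d ∈ MP n := by
  refine ⟨fun ⟨e, he⟩ => ?_, fun i j k hij hjk hik => ?_⟩
  · induction e using Sym2.ind with
    | h i j =>
      rw [← D_ne d]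
      refine ⟨?_, h1 i j⟩
      obtain ⟨k, -, hk⟩ := exists_mem_notMem_of_card_lt_card (s := {i, j}) (t := univ)
        (lt_of_le_of_lt card_le_two (by rw [card_univ, Fintype.card_fin]; omega))
      simp only [mem_insert, mem_singleton, not_or] at hk
      have a1 := h2 i j k (Ne.symm hk.1)
      have a2 := h2 j i k (Ne.symm hk.2)
      rw [D_symm d j i] at a2
      linarith
  · rw [← D_ne d, ← D_ne d, ← D_ne d]
    linarith [h2 i j k (by simpa using hik)]

lemma odd_sq {α : Type} (s : Finset α) (f : α → ℝ) (hf : ∀ a, 0 ≤ f a ∧ f a ≤ 1) :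
    ∀ m : ℤ, Odd m → 1 ≤ (m - 2 * ∑ a ∈ s, f a) ^ 2 + 4 * ∑ a ∈ s, (f a - f a * f a) := by
  classical
  induction s using Finset.induction_on with
  | empty =>
    intro m hm
    have : 1 ≤ m ^ 2 := by
      have : m ≠ 0 := by rintro rfl; simp at hm
      exact Int.add_one_le_iff.2 (by positivity : 0 < m ^ 2)
    simpa using (show (1 : ℝ) ≤ (m : ℝ) ^ 2 by exact_mod_cast this)
  | insert a s ha ih =>
    intro m hm
    have h1 := ih m hm
    have h2 := ih (m - 2) (hm.sub_even even_two)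
    rw [sum_insert ha, sum_insert ha]
    push_cast at h2
    nlinarith [mul_nonneg (hf a).1 (sub_nonneg.2 h2),
      mul_nonneg (sub_nonneg.2 (hf a).2) (sub_nonneg.2 h1)]

lemma MP_ineq {d : Pr n → ℝ} (hd : d ∈ MP n) : d ⬝ᵥ d ≤ ∑ e, d e ∧
    2 * n * (d ⬝ᵥ d) - n * ∑ e, d e ≤ (B n *ᵥ d) ⬝ᵥ (B n *ᵥ d) ∧
    0 ≤ (n : ℝ) ^ 3 - 8 * n * ∑ e, d e + 4 * ((B n *ᵥ d) ⬝ᵥ (B n *ᵥ d)) +
      ((n % 2 : ℕ) : ℝ) * (8 * (∑ e, d e - d ⬝ᵥ d) - n) := by
  obtain ⟨h1, h2⟩ := MP_D hd
  set S := (B n *ᵥ d) ⬝ᵥ (B n *ᵥ d) with hS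
  have h0 := sum_DD d d
  have h0' := sum_D d
  refine ⟨sum_le_sum fun e _ => mul_le_of_le_one_right (hd.1 e).1 (hd.1 e).2, ?_, ?_⟩
  · have s1 : ∑ i, ∑ j, ∑ k, D d i j * D d i k = S := by
      simp only [hS, dotProduct, B_mulVec, sum_mul_sum]
    have p1 : ∑ i, ∑ j, ∑ _k : Fin n, D d i j * D d i j = n * (2 * (d ⬝ᵥ d)) := by
      simp [← h0, mul_sum]
    have p3 : ∑ i, ∑ _j : Fin n, ∑ k, D d i k * D d i k = n * (2 * (d ⬝ᵥ d)) := by
      rw [sw23, p1]
    have p2 : ∑ _i : Fin n, ∑ j, ∑ k, D d j k = n * (2 * ∑ e, d e) := by simp [h0']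
    have : ∑ i, ∑ j, ∑ k, (D d i j * D d i j + D d i k * D d i k - 2 * (D d i j * D d i k)) ≤
        ∑ _i : Fin n, ∑ j, ∑ k, D d j k := by
      refine sum_le_sum fun i _ => sum_le_sum fun j _ => sum_le_sum fun k _ => ?_
      have a1 := h2 i j k
      have a2 := h2 i k j
      rw [D_symm d k j] at a2
      nlinarith [h1 j k]
    have s2 : ∑ i, ∑ j, ∑ k, 2 * (D d i j * D d i k) = 2 * S := by
      simp only [← s1, mul_sum]
    simp only [sum_add_distrib, sum_sub_distrib, s2, p1, p2, p3] at this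
    linarith
  · have e1 : ∑ i, ((n : ℝ) - 2 * ∑ j, D d i j) ^ 2 = n ^ 3 - 8 * n * ∑ e, d e + 4 * S := by
      have : ∀ i, ((n : ℝ) - 2 * ∑ j, D d i j) ^ 2 = n ^ 2 - 4 * n * ∑ j, D d i j +
        4 * ((∑ j, D d i j) * ∑ j, D d i j) := fun i => by ring
      simp only [this, sum_add_distrib, sum_sub_distrib, ← mul_sum, h0', hS, dotProduct, B_mulVec]
      simp
      ring
    rcases Nat.even_or_odd n with h | h
    · rw [Nat.even_iff.1 h, ← e1]
      simp only [Nat.cast_zero, zero_mul, add_zero]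
      positivity
    · have := sum_le_sum fun i (_ : i ∈ univ) => odd_sq univ (D d i) (h1 i) n (by exact_mod_cast h)
      simp only [sum_add_distrib, sum_sub_distrib, ← mul_sum, h0, h0', Int.cast_natCast, e1] at this
      rw [Nat.odd_iff.1 h]
      simp at this ⊢
      linarith

lemma exists_cut (n : ℕ) : ∃ d ∈ MP n, d ⬝ᵥ d = ((n ^ 2 / 4 : ℕ) : ℝ) ∧
    ∑ e, d e = ((n ^ 2 / 4 : ℕ) : ℝ) ∧ (B n *ᵥ d) ⬝ᵥ (B n *ᵥ d) = n * ((n ^ 2 / 4 : ℕ) : ℝ) := by
  let f : Fin n → ℝ := fun i => if i.1 < n / 2 then 1 else 0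
  have hf : ∀ i, f i = 0 ∨ f i = 1 := fun i => by simp only [f]; split_ifs <;> simp
  let d : Pr n → ℝ := fun e => Sym2.lift ⟨fun i j => (f i - f j) ^ 2, fun i j => by ring⟩ e.1
  have hD : ∀ i j, D d i j = f i + f j - 2 * f i * f j := by
    intro i j
    unfold D
    split_ifs with h
    · rw [Sym2.mk_isDiag_iff.1 h]
      rcases hf j with h | h <;> rw [h] <;> norm_num
    · simp only [d, Sym2.lift_mk]
      rcases hf i with h | h <;> rcases hf j with h' | h' <;> rw [h, h'] <;> norm_num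
  have ha : ∑ i, f i = ((n / 2 : ℕ) : ℝ) := by
    simp only [f]
    rw [Fin.sum_univ_eq_sum_range (fun i => if i < n / 2 then (1 : ℝ) else 0) n, ← sum_filter]
    have : filter (· < n / 2) (range n) = range (n / 2) := by
      ext i; simp only [mem_filter, mem_range]; omega
    simp [this]
  have hk : ((n ^ 2 / 4 : ℕ) : ℝ) = ((n / 2 : ℕ) : ℝ) * (n - ((n / 2 : ℕ) : ℝ)) := by
    obtain ⟨m, rfl | rfl⟩ := Nat.even_or_odd' n
    · rw [show (2 * m) ^ 2 / 4 = m * m by rw [show (2 * m) ^ 2 = 4 * (m * m) by ring]; omega,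
        show 2 * m / 2 = m by omega]
      push_cast; ring
    · rw [show (2 * m + 1) ^ 2 / 4 = m * m + m by
        rw [show (2 * m + 1) ^ 2 = 4 * (m * m + m) + 1 by ring]; omega,
        show (2 * m + 1) / 2 = m by omega]
      push_cast; ring
  set a : ℝ := ((n / 2 : ℕ) : ℝ)
  have hs : ∀ i, ∑ j, D d i j = a + (n - 2 * a) * f i := by
    intro i
    simp only [hD, sum_add_distrib, sum_sub_distrib, ← mul_sum, ha]
    simp
    ring
  have hY : ∑ e, d e = a * (n - a) := by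
    have := sum_D d
    simp only [hs, sum_add_distrib, ← mul_sum, ha] at this
    simp at this
    linarith
  refine ⟨d, ⟨fun ⟨e, he⟩ => ?_, fun i j k hij hjk hik => ?_⟩, ?_, hY.trans hk.symm, ?_⟩
  · induction e using Sym2.ind with
    | h i j =>
      rw [← D_ne d, hD]
      rcases hf i with h | h <;> rcases hf j with h' | h' <;> rw [h, h'] <;> norm_num
  · rw [← D_ne d, ← D_ne d, ← D_ne d, hD, hD, hD]
    rcases hf i with h | h <;> rcases hf j with h' | h' <;> rcases hf k with h'' | h'' <;>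
      rw [h, h', h''] <;> norm_num
  · have h1 := sum_DD d d
    have h2 : ∀ i j, D d i j * D d i j = D d i j := by
      intro i j
      rw [hD]
      rcases hf i with h | h <;> rcases hf j with h' | h' <;> rw [h, h'] <;> norm_num
    simp only [h2, sum_D] at h1
    linarith
  · have h2 : ∀ i, (a + (n - 2 * a) * f i) * (a + (n - 2 * a) * f i) =
        a ^ 2 + (n - 2 * a) * n * f i := by
      intro i
      rcases hf i with h | h <;> rw [h] <;> ring
    simp only [dotProduct, B_mulVec, hs, h2, sum_add_distrib, ← mul_sum, ha, hk]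
    simp
    ring

end Pool.Agent.P.MP_68beba_co
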